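import Mathlib

/-!
# A generic family of pairs (point of the Cantor set, alternating sequence of three colours)
-/

set_option autoImplicit false

namespace Pool.Agent.H641.CP

open Set Topology

/-- the Cantor set -/
abbrev K : Type := ℕ → Bool

/-- the alternating sequence of colours with steps coded by `w`: two consecutive values are
always different -/
def vv (w : K) : ℕ → Fin 3
  | 0 => 0
  | n + 1 => vv w n + (if w n then 1 else 2)

lemma vv_ne (w : K) (n : ℕ) : vv w n ≠ vv w (n + 1) := by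
  have h : ∀ a : Fin 3, a ≠ a + 1 ∧ a ≠ a + 2 := by decide
  rw [vv]
  split
  · exact (h _).1
  · exact (h _).2

lemma vv_congr {w w' : K} {n : ℕ} (h : ∀ i < n, w i = w' i) : vv w n = vv w' n := by
  induction n with
  | zero => rfl
  | succ n ih =>
    rw [vv, vv, ih fun i hi => h i (by omega), h n (by omega)]

/-- the first difference of `x` and `y` -/
noncomputable def fd (x y : K) : ℕ := PiNat.firstDiff x y

lemma fd_comm (x y : K) : fd x y = fd y x := PiNat.firstDiff_comm x y

lemma fd_ne {x y : K} (h : x ≠ y) : x (fd x y) ≠ y (fd x y) := PiNat.apply_firstDiff_ne h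

lemma fd_lt {x y : K} {n : ℕ} (h : n < fd x y) : x n = y n := PiNat.apply_eq_of_lt_firstDiff h

lemma fd_eq {x y : K} {n : ℕ} (h : ∀ i < n, x i = y i) (h' : x n ≠ y n) : fd x y = n := by
  have hne : x ≠ y := fun e => h' (by rw [e])
  rcases lt_trichotomy (fd x y) n with h1 | h1 | h1
  · exact absurd (h _ h1) (fd_ne hne)
  · exact h1
  · exact absurd (fd_lt h1) h'

/-- if the first `n` values of `x` and `y` agree and `x ≠ y` then the first difference is
at least `n` -/
lemma le_fd {x y : K} {n : ℕ} (h : ∀ i < n, x i = y i) (hne : x ≠ y) : n ≤ fd x y := by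
  by_contra hc
  exact fd_ne hne (h _ (by omega))

/-- the requirement on a pair `y` and a colour `c`, for the finite set `B` at the level `n` -/
def Ok (B : Finset K) (n : ℕ) (y : K × K) (c : Fin 3) : Prop :=
  ∀ x ∈ B, (∀ i < n, x i = y.1 i) → x ≠ y.1 ∧ vv y.2 (fd x y.1) ≠ c

/-- basic neighbourhoods -/
def cyl (y : K × K) (k : ℕ) : Set (K × K) := {z | ∀ i < k, z.1 i = y.1 i ∧ z.2 i = y.2 i}

lemma cyl_open (y : K × K) (k : ℕ) : IsOpen (cyl y k) := by
  have : cyl y k = ⋂ i ∈ Finset.range k, {z : K × K | z.1 i = y.1 i ∧ z.2 i = y.2 i} := by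
    ext z; simp [cyl]
  rw [this]
  refine isOpen_biInter_finset fun i _ => ?_
  have h1 : Continuous fun z : K × K => (z.1 i, z.2 i) := by fun_prop
  have h2 : {z : K × K | z.1 i = y.1 i ∧ z.2 i = y.2 i} =
      (fun z : K × K => (z.1 i, z.2 i)) ⁻¹' {(y.1 i, y.2 i)} := by
    ext z; simp [Prod.ext_iff]
  rw [h2]
  exact (isOpen_discrete _).preimage h1

lemma exists_prefix {x : K} {U : Set K} (hU : IsOpen U) (hx : x ∈ U) :
    ∃ k, ∀ z : K, (∀ i < k, z i = x i) → z ∈ U := by
  obtain ⟨I, u, h1, h2⟩ := isOpen_pi_iff.1 hU x hx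
  refine ⟨I.sup id + 1, fun z hz => h2 fun i hi => ?_⟩
  have : i ≤ I.sup id := Finset.le_sup (f := id) hi
  rw [hz i (by omega)]
  exact (h1 i hi).2

lemma exists_cyl {y : K × K} {U : Set (K × K)} (hU : IsOpen U) (hy : y ∈ U) :
    ∃ k, cyl y k ⊆ U := by
  obtain ⟨u, v, hu, hv, hyu, hyv, huv⟩ := isOpen_prod_iff.1 hU y.1 y.2 hy
  obtain ⟨k, hk⟩ := exists_prefix hu hyu
  obtain ⟨l, hl⟩ := exists_prefix hv hyv
  refine ⟨max k l, fun z hz => huv ⟨hk _ fun i hi => (hz i (by omega)).1,
    hl _ fun i hi => (hz i (by omega)).2⟩⟩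

lemma ok_open (B : Finset K) (n : ℕ) (c : Fin 3) : IsOpen {y | Ok B n y c} := by
  rw [isOpen_iff_forall_mem_open]
  intro y hy
  refine ⟨cyl y (n + B.sup (fun x => fd x y.1) + 1), ?_, cyl_open _ _, fun i _ => ⟨rfl, rfl⟩⟩
  intro z hz x hx hxz
  have hle : fd x y.1 ≤ B.sup (fun x => fd x y.1) := Finset.le_sup (f := fun x => fd x y.1) hx
  have hxy : ∀ i < n, x i = y.1 i := fun i hi => by
    rw [hxz i hi, (hz i (by omega)).1]
  obtain ⟨h1, h2⟩ := hy x hx hxy
  have h3 : x (fd x y.1) ≠ z.1 (fd x y.1) := by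
    rw [(hz _ (by omega)).1]
    exact fd_ne h1
  have h4 : fd x z.1 = fd x y.1 := by
    refine fd_eq (fun i hi => ?_) h3
    rw [(hz i (by omega)).1]
    exact fd_lt hi
  refine ⟨fun e => h3 (by rw [e]), ?_⟩
  rw [h4]
  have : vv z.2 (fd x y.1) = vv y.2 (fd x y.1) := vv_congr fun i hi => (hz i (by omega)).2
  rwa [this]

/-- the sequence continuing `w` from `k` on so that the colour `c` is avoided -/
def avA (w : K) (k : ℕ) (c : Fin 3) : ℕ → Fin 3
  | 0 => 0
  | n + 1 => avA w k c n + (if (if n < k then w n else decide (avA w k c n + 1 ≠ c)) then 1 else 2)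

/-- the steps of `avA` -/
def avW (w : K) (k : ℕ) (c : Fin 3) : K := fun n =>
  if n < k then w n else decide (avA w k c n + 1 ≠ c)

lemma vv_av (w : K) (k : ℕ) (c : Fin 3) (n : ℕ) : vv (avW w k c) n = avA w k c n := by
  induction n with
  | zero => rfl
  | succ n ih => rw [vv, avA, ih]; rfl

lemma av_ne (w : K) (k : ℕ) (c : Fin 3) {n : ℕ} (h : k ≤ n) : vv (avW w k c) (n + 1) ≠ c := by
  rw [vv_av, avA]
  have h3 : ∀ a c : Fin 3, a + 1 = c → a + 2 ≠ c := by decide
  rw [if_neg (by omega : ¬ n < k)]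
  by_cases h1 : avA w k c n + 1 = c
  · simpa [h1] using h3 _ _ h1
  · simp [h1]

lemma av_lt (w : K) (k : ℕ) (c : Fin 3) {n : ℕ} (h : n < k) : avW w k c n = w n := by
  simp [avW, h]

lemma infinite_cyl (x : K) (n : ℕ) : {z : K | ∀ i < n, z i = x i}.Infinite := by
  have hinj : Function.Injective (fun j : ℕ => (fun i => if i < n then x i else decide (i = n + j) : K)) := by
    intro a b hab
    have := congrFun hab (n + a)
    simp at this
    omega
  refine (Set.infinite_range_of_injective hinj).mono ?_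
  rintro _ ⟨j, rfl⟩ i hi
  simp [hi]

lemma step_dense {G : Set ℕ} (hG : G.Infinite) (B : ℕ → Finset K) (c : Fin 3) (N : ℕ) :
    Dense {y : K × K | ∃ n ∈ G, N ≤ n ∧ Ok (B n) n y c} := by
  intro y
  rw [mem_closure_iff]
  intro U hU hy
  obtain ⟨k, hk⟩ := exists_cyl hU hy
  obtain ⟨n, hnG, hn⟩ := hG.exists_gt (max k N)
  obtain ⟨t, ht, htB⟩ := ((infinite_cyl y.1 n).sdiff (B n).finite_toSet).nonempty
  refine ⟨(t, avW y.2 (n - 1) c), hk fun i hi => ⟨ht i (by omega), ?_⟩, n, hnG, by omega, ?_⟩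
  · exact av_lt _ _ _ (by omega)
  · intro x hx hxt
    have hne : x ≠ t := fun e => htB (by rw [← e]; exact hx)
    refine ⟨hne, ?_⟩
    have h1 : n ≤ fd x t := le_fd hxt hne
    obtain ⟨m, hm⟩ : ∃ m, fd x t = m + 1 := ⟨fd x t - 1, by omega⟩
    show vv (avW y.2 (n - 1) c) (fd x t) ≠ c
    rw [hm]
    exact av_ne _ _ _ (by omega)

lemma step_open (G : Set ℕ) (B : ℕ → Finset K) (c : Fin 3) (N : ℕ) :
    IsOpen {y : K × K | ∃ n ∈ G, N ≤ n ∧ Ok (B n) n y c} := by
  have : {y : K × K | ∃ n ∈ G, N ≤ n ∧ Ok (B n) n y c} =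
      ⋃ n ∈ {n | n ∈ G ∧ N ≤ n}, {y | Ok (B n) n y c} := by
    ext y; simp only [mem_ofPred_eq, mem_iUnion, exists_prop]; tauto
  rw [this]
  exact isOpen_biUnion fun n _ => ok_open _ _ _

lemma ne_open (a : K) : IsOpen {y : K × K | a ≠ y.1} := by
  have : {y : K × K | a ≠ y.1} = Prod.fst ⁻¹' {a}ᶜ := by
    ext y; simp [eq_comm]
  rw [this]
  exact isOpen_compl_singleton.preimage continuous_fst

lemma ne_dense (a : K) : Dense {y : K × K | a ≠ y.1} := by
  intro y
  rw [mem_closure_iff]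
  intro U hU hy
  obtain ⟨k, hk⟩ := exists_cyl hU hy
  obtain ⟨t, ht, hta⟩ := ((infinite_cyl y.1 k).sdiff (Set.finite_singleton a)).nonempty
  exact ⟨(t, y.2), hk fun i hi => ⟨ht i hi, rfl⟩, fun e => hta (by rw [mem_singleton_iff]; exact e.symm)⟩

section Rec

variable {I : Type} [LinearOrder I] (B : I → ℕ → Finset K)

/-- the good levels for the finite set `S` of pairs (index, colour) -/
def GS (z : I → K × K) (b : ℕ → Finset K) (S : Finset (I × Fin 3)) : Set ℕ :=
  {n | ∀ p ∈ S, Ok (b n) n (z p.1) p.2}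

/-- `y` is generic enough to be the value at `β` -/
def Good (β : I) (z : I → K × K) (y : K × K) : Prop :=
  (∀ α < β, (z α).1 ≠ y.1) ∧ ∀ ξ < β, ∀ S : Finset (I × Fin 3), (∀ p ∈ S, p.1 < β) → ∀ c : Fin 3,
    (GS z (B ξ) S).Infinite → ∀ N, ∃ n ∈ GS z (B ξ) S, N ≤ n ∧ Ok (B ξ n) n y c

lemma exists_good (β : I) (hβ : (Iio β).Countable) (z : I → K × K) : ∃ y, Good B β z y := by
  classical
  have : Countable (Iio β) := hβ.to_subtype
  let ι := (Iio β) × Finset ((Iio β) × Fin 3) × Fin 3 × ℕ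
  let emb : Finset ((Iio β) × Fin 3) → Finset (I × Fin 3) := fun S =>
    S.image (fun p => ((p.1 : I), p.2))
  let U : ι → Set (K × K) := fun i =>
    {y | (GS z (B i.1) (emb i.2.1)).Infinite →
      ∃ n ∈ GS z (B i.1) (emb i.2.1), i.2.2.2 ≤ n ∧ Ok (B i.1 n) n y i.2.2.1}
  have hUo : ∀ i, IsOpen (U i) := by
    intro i
    by_cases h : (GS z (B i.1) (emb i.2.1)).Infinite
    · have : U i = {y : K × K | ∃ n ∈ GS z (B i.1) (emb i.2.1), i.2.2.2 ≤ n ∧
          Ok (B i.1 n) n y i.2.2.1} := by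
        ext y; simp [U, h]
      rw [this]
      exact step_open _ _ _ _
    · have : U i = univ := by ext y; simp [U, h]
      rw [this]; exact isOpen_univ
  have hUd : ∀ i, Dense (U i) := by
    intro i
    by_cases h : (GS z (B i.1) (emb i.2.1)).Infinite
    · have : U i = {y : K × K | ∃ n ∈ GS z (B i.1) (emb i.2.1), i.2.2.2 ≤ n ∧
          Ok (B i.1 n) n y i.2.2.1} := by
        ext y; simp [U, h]
      rw [this]
      exact step_dense h _ _ _
    · have : U i = univ := by ext y; simp [U, h]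
      rw [this]; exact dense_univ
  have hd : Dense (⋂ s : (Iio β) ⊕ ι, Sum.elim (fun α : Iio β => {y : K × K | (z α).1 ≠ y.1}) U s) := by
    refine dense_iInter_of_isOpen ?_ ?_
    · rintro (α | i)
      · exact ne_open _
      · exact hUo i
    · rintro (α | i)
      · exact ne_dense _
      · exact hUd i
  obtain ⟨y, hy⟩ := hd.nonempty
  rw [mem_iInter] at hy
  refine ⟨y, fun α hα => hy (Sum.inl ⟨α, hα⟩), fun ξ hξ S hS c hinf N => ?_⟩
  let S' : Finset ((Iio β) × Fin 3) := S.attach.image fun p => (⟨p.1.1, hS p.1 p.2⟩, p.1.2)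
  have hS' : emb S' = S := by
    ext p
    simp only [emb, S', Finset.mem_image, Finset.mem_attach, true_and, Subtype.exists]
    constructor
    · rintro ⟨a, ⟨q, hq, rfl⟩, rfl⟩; exact hq
    · intro hp; exact ⟨_, ⟨p, hp, rfl⟩, rfl⟩
  have := hy (Sum.inr (⟨ξ, hξ⟩, S', c, N))
  simp only [Sum.elim_inr, U, hS', mem_ofPred_eq] at this
  exact this hinf

lemma good_congr {β : I} {z z' : I → K × K} (h : ∀ α < β, z α = z' α) {y : K × K}
    (hg : Good B β z y) : Good B β z' y := by
  have hGS : ∀ ξ, ∀ S : Finset (I × Fin 3), (∀ p ∈ S, p.1 < β) →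
      GS z' (B ξ) S = GS z (B ξ) S := by
    intro ξ S hS
    ext n
    simp only [GS, mem_ofPred_eq]
    exact forall₂_congr fun p hp => by rw [h _ (hS p hp)]
  refine ⟨fun α hα => by rw [← h α hα]; exact hg.1 α hα, fun ξ hξ S hS c hinf N => ?_⟩
  rw [hGS ξ S hS] at hinf ⊢
  exact hg.2 ξ hξ S hS c hinf N

open Classical in
/-- the recursive construction -/
noncomputable def zz [WellFoundedLT I] : I → K × K :=
  (wellFounded_lt (α := I)).fix fun β ih =>
    if h : ∃ y, Good B β (fun α => if hα : α < β then ih α hα else (fun _ => false, fun _ => false)) y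
      then h.choose else (fun _ => false, fun _ => false)

lemma zz_good [WellFoundedLT I] (hI : ∀ β : I, (Iio β).Countable) (β : I) :
    Good B β (zz B) (zz B β) := by
  classical
  have h := exists_good B β (hI β)
    (fun α => if hα : α < β then zz B α else (fun _ => false, fun _ => false))
  have hz : zz B β = h.choose := by
    unfold zz
    rw [WellFounded.fix_eq]
    exact dif_pos h
  rw [hz]
  exact good_congr B (fun α hα => by simp [hα]) h.choose_spec

lemma zz_main [WellFoundedLT I] (hI : ∀ β : I, (Iio β).Countable) (ξ : I) (c : I → Fin 3)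
    (A : Finset I) : (∀ β ∈ A, ξ < β) →
    (GS (zz B) (B ξ) (A.image fun β => (β, c β))).Infinite := by
  classical
  induction A using Finset.induction_on_max with
  | empty =>
    intro _
    have : GS (zz B) (B ξ) ((∅ : Finset I).image fun β => (β, c β)) = univ := by
      ext n; simp [GS]
    rw [this]
    exact Set.infinite_univ
  | insert a s has ih =>
    intro hA
    have ih' := ih fun β hβ => hA β (Finset.mem_insert_of_mem hβ)
    have hgood := (zz_good B hI a).2 ξ (hA a (Finset.mem_insert_self _ _))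
      (s.image fun β => (β, c β)) (by
        intro p hp
        obtain ⟨β, hβ, rfl⟩ := Finset.mem_image.1 hp
        exact has β hβ) (c a) ih'
    rw [Set.infinite_iff_exists_gt]
    intro N
    obtain ⟨n, hn1, hn2, hn3⟩ := hgood (N + 1)
    refine ⟨n, ?_, by omega⟩
    intro p hp
    rw [Finset.image_insert, Finset.mem_insert] at hp
    rcases hp with rfl | hp
    · exact hn3
    · exact hn1 p hp

end Rec

/-- **The generic family.** -/
def HasFam : Prop := ∃ (I : Type) (z : I → K × K), Uncountable I ∧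
  Function.Injective (fun i => (z i).1) ∧
  ∀ B : ℕ → Finset K, ∃ J : Set I, J.Countable ∧ ∀ (A : Finset I) (c : I → Fin 3) (N : ℕ),
    (∀ β ∈ A, β ∉ J) → ∃ n, N ≤ n ∧ ∀ β ∈ A, Ok (B n) n (z β) (c β)

open Cardinal


/-- a well-ordered set of type `ω₁` -/
abbrev W1 : Type := (Cardinal.aleph 1).ord.ToType

lemma W1_card : #W1 = ℵ₁ := by simp [W1]

lemma Iio_ct (j : W1) : (Iio j).Countable := by
  refine Cardinal.le_aleph0_iff_set_countable.1 (Order.lt_succ_iff.1 ?_)
  have := Cardinal.mk_Iio_lt j (by simp [W1])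
  simpa [W1] using this

theorem hasFam_of_CH (h : ℵ₁ = (𝔠 : Cardinal.{0})) : HasFam := by
  classical
  have hcard : #(ℕ → Finset K) = 𝔠 := by
    have h1 : #K = 𝔠 := by simp [K]
    have : Infinite K := by
      rw [Cardinal.infinite_iff, h1]; exact Cardinal.aleph0_le_continuum
    have h2 : #(Finset K) = 𝔠 := by rw [Cardinal.mk_finset_of_infinite, h1]
    rw [← Cardinal.power_def, h2]
    simp
  obtain ⟨e⟩ : Nonempty (W1 ≃ (ℕ → Finset K)) := Cardinal.eq.1 (by rw [W1_card, hcard, h])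
  have hI : ∀ β : W1, (Iio β).Countable := Iio_ct
  refine ⟨W1, zz e, ?_, ?_, fun B => ?_⟩
  · rw [← Cardinal.aleph0_lt_mk_iff, W1_card]
    exact Cardinal.aleph0_lt_aleph_one
  · intro a b hab
    by_contra hne
    rcases lt_or_gt_of_ne hne with h1 | h1
    · exact (zz_good e hI b).1 a h1 hab
    · exact (zz_good e hI a).1 b h1 hab.symm
  · refine ⟨Iic (e.symm B), ?_, fun A c N hA => ?_⟩
    · rw [← Iio_insert]; exact (hI _).insert _
    · have := zz_main e hI (e.symm B) c A (fun β hβ => by simpa using hA β hβ)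
      obtain ⟨n, hn, hN⟩ := this.exists_gt N
      refine ⟨n, hN.le, fun β hβ => ?_⟩
      have := hn (β, c β) (Finset.mem_image_of_mem _ hβ)
      simpa using this
end Pool.Agent.H641.CP
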