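import Pool.Agent.H641.CP.Tight
import Pool.Agent.H641.CP.Fam

/-!
# Continuous two-valued functions which depend on a family of `ℵ₁` such functions
-/

set_option autoImplicit false

namespace Pool.Agent.H641.CP

open Set Topology Cardinal

variable {X : Type} [TopologicalSpace X] (d : W1 → Two X)

/-- `e` depends on the functions `d μ`, `μ ∈ S` -/
def Dep (S : Set W1) (e : Two X) : Prop :=
  ∀ x y, (∀ μ ∈ S, (d μ).1 x = (d μ).1 y) → e.1 x = e.1 y

/-- the functions which depend on the family `d` -/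
def BB : Set (Two X) := {e | Dep d univ e}

lemma mem_BB (μ : W1) : d μ ∈ BB d := fun _ _ h => h μ trivial

lemma BB_comp {e : Two X} {r : W1 → W1} (h : e ∈ BB (d ∘ r)) : e ∈ BB d :=
  fun x y hxy => h x y fun μ _ => hxy (r μ) trivial

lemma BB_closed : IsClosed (BB d) := by
  have : BB d = ⋂ x, ⋂ y, ⋂ (_ : ∀ μ ∈ (univ : Set W1), (d μ).1 x = (d μ).1 y),
      {e : Two X | e.1 x = e.1 y} := by
    ext e; simp only [BB, Dep, mem_ofPred_eq, mem_iInter]
  rw [this]
  exact isClosed_iInter fun x => isClosed_iInter fun y => isClosed_iInter fun _ =>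
    isClosed_eq (two_eval x) (two_eval y)

lemma comp [CompactSpace X] {S : Set W1} {e : Two X} (h : Dep d S e) :
    ∃ H : Finset W1, (↑H : Set W1) ⊆ S ∧ Dep d ↑H e := by
  classical
  have hC : IsCompact {p : X × X | e.1 p.1 ≠ e.1 p.2} := by
    have h1 : Continuous fun p : X × X => (e.1 p.1, e.1 p.2) :=
      (e.2.comp continuous_fst).prodMk (e.2.comp continuous_snd)
    exact ((isClosed_discrete {q : Bool × Bool | q.1 ≠ q.2}).preimage h1).isCompact
  have hZ : ∀ μ : S, IsClosed {p : X × X | (d μ.1).1 p.1 = (d μ.1).1 p.2} := fun μ =>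
    isClosed_eq ((d μ.1).2.comp continuous_fst) ((d μ.1).2.comp continuous_snd)
  obtain ⟨u, hu⟩ := hC.elim_finite_subfamily_closed _ hZ (by
    rw [Set.eq_empty_iff_forall_notMem]
    rintro ⟨x, y⟩ ⟨h1, h2⟩
    rw [mem_iInter] at h2
    exact h1 (h x y fun μ hμ => h2 ⟨μ, hμ⟩))
  refine ⟨u.image Subtype.val, ?_, fun x y hxy => ?_⟩
  · intro μ hμ
    obtain ⟨ν, _, rfl⟩ := Finset.mem_image.1 (Finset.mem_coe.1 hμ)
    exact ν.2
  · by_contra hne
    have : (x, y) ∈ {p : X × X | e.1 p.1 ≠ e.1 p.2} ∩ ⋂ i ∈ u,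
        {p : X × X | (d i.1).1 p.1 = (d i.1).1 p.2} :=
      ⟨hne, mem_iInter₂.2 fun μ hμ => hxy _ (by
        rw [Finset.mem_coe]; exact Finset.mem_image_of_mem _ hμ)⟩
    rw [hu] at this
    exact this

lemma fin_dep (H : Finset W1) : {e : Two X | Dep d ↑H e}.Countable := by
  classical
  let g : Two X → ((H → Bool) → Bool) := fun e pat =>
    decide (∃ x, (∀ μ : H, (d μ.1).1 x = pat μ) ∧ e.1 x = true)
  have hinj : Set.InjOn g {e : Two X | Dep d ↑H e} := by
    intro e he e' he' heq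
    have key : ∀ (e₁ e₂ : Two X), Dep d ↑H e₂ → g e₁ = g e₂ → ∀ x, e₁.1 x = true →
        e₂.1 x = true := by
      intro e₁ e₂ h2 h x hx
      have h3 : g e₁ (fun μ => (d μ.1).1 x) = true := by
        simp only [g, decide_eq_true_eq]
        exact ⟨x, fun _ => rfl, hx⟩
      rw [h] at h3
      simp only [g, decide_eq_true_eq] at h3
      obtain ⟨y, hy1, hy2⟩ := h3
      rw [← h2 y x fun μ hμ => hy1 ⟨μ, hμ⟩]
      exact hy2
    refine Subtype.ext (funext fun x => ?_)
    rw [Bool.eq_iff_iff]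
    exact ⟨key e e' he' heq x, key e' e he heq.symm x⟩
  exact Set.countable_of_injective_of_countable_image hinj (Set.to_countable _)

lemma Iic_ct (j : W1) : (Iic j).Countable := by
  rw [← Iio_insert]; exact (Iio_ct j).insert _

/-- the functions which depend on finitely many members of the family below `ν` -/
def Low (ν : W1) : Set (Two X) := {e | ∃ H : Finset W1, (↑H : Set W1) ⊆ Iic ν ∧ Dep d ↑H e}

lemma low_ct (ν : W1) : (Low d ν).Countable := by
  have h1 : {H : Finset W1 | (↑H : Set W1) ⊆ Iic ν}.Countable :=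
    ((Set.countable_ofPred_finite_subset (Iic_ct ν)).preimage Finset.coe_injective).mono
      fun F hF => And.intro F.finite_toSet hF
  refine (h1.biUnion fun H _ => fin_dep d H).mono ?_
  rintro e ⟨H, hH, he⟩
  exact mem_iUnion₂.2 ⟨H, hH, he⟩

lemma low_mono {ν ν' : W1} (h : ν ≤ ν') : Low d ν ⊆ Low d ν' := by
  rintro e ⟨H, hH, he⟩
  exact ⟨H, hH.trans (Iic_subset_Iic.2 h), he⟩

instance : Nonempty W1 := by
  rw [← Cardinal.mk_ne_zero_iff, W1_card]; exact (Cardinal.aleph_pos 1).ne'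

lemma BB_sub [CompactSpace X] : BB d ⊆ ⋃ ν, Low d ν := by
  intro e he
  obtain ⟨H, _, hH⟩ := comp d he
  rcases H.eq_empty_or_nonempty with rfl | hne
  · obtain ⟨ν⟩ := (inferInstance : Nonempty W1)
    exact mem_iUnion.2 ⟨ν, ∅, by simp, hH⟩
  · exact mem_iUnion.2 ⟨H.max' hne, H, fun μ hμ => H.le_max' μ (by simpa using hμ), hH⟩

lemma BB_card [CompactSpace X] : #(BB d) ≤ ℵ₁ := by
  refine (Cardinal.mk_le_mk_of_subset (BB_sub d)).trans ?_
  refine Cardinal.mk_iUnion_le_sum_mk.trans ?_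
  refine (Cardinal.sum_le_sum _ (fun _ => ℵ₀) fun ν => (low_ct d ν).le_aleph0).trans ?_
  rw [Cardinal.sum_const', W1_card, Cardinal.mul_eq_left (Cardinal.aleph0_le_aleph 1)
    (Cardinal.aleph0_le_aleph 1) Cardinal.aleph0_ne_zero]

/-- **The split pairs.** -/
lemma pairs [CompactSpace X] [Nonempty X] : ∃ P : Two X → X × X,
    {e ∈ BB d | e.1 (P e).1 = e.1 (P e).2}.Countable ∧
    ∀ μ, {e ∈ BB d | (d μ).1 (P e).1 ≠ (d μ).1 (P e).2}.Countable := by
  classical
  obtain ⟨x0⟩ := ‹Nonempty X›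
  have key : ∀ e : Two X, ∃ p : X × X, e ∈ BB d → (¬ Dep d (∅ : Set W1) e →
      e.1 p.1 ≠ e.1 p.2) ∧ ∀ μ, (d μ).1 p.1 ≠ (d μ).1 p.2 → e ∈ Low d μ := by
    intro e
    by_cases he : e ∈ BB d ∧ ¬ Dep d (∅ : Set W1) e
    · obtain ⟨he, hn⟩ := he
      have hex : ∃ ν, e ∈ Low d ν := mem_iUnion.1 (BB_sub d he)
      let m := (wellFounded_lt (α := W1)).min {ν | e ∈ Low d ν} hex
      have hm : e ∈ Low d m := (wellFounded_lt (α := W1)).min_mem {ν | e ∈ Low d ν} hex
      have hmin : ∀ ν < m, e ∉ Low d ν := fun ν hν h =>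
        (wellFounded_lt (α := W1)).not_lt_min {ν | e ∈ Low d ν} h hν
      have hnd : ¬ Dep d (Iio m) e := by
        intro h
        obtain ⟨H, hH, hd⟩ := comp d h
        rcases H.eq_empty_or_nonempty with rfl | hne
        · exact hn (by simpa using hd)
        · have h1 : H.max' hne < m := hH (by simpa using H.max'_mem hne)
          exact hmin _ h1 ⟨H, fun μ hμ => H.le_max' μ (by simpa using hμ), hd⟩
      simp only [Dep, not_forall] at hnd
      obtain ⟨x, y, h1, h2⟩ := hnd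
      refine ⟨(x, y), fun _ => ⟨fun _ => h2, fun μ hμ => ?_⟩⟩
      have : m ≤ μ := by
        by_contra hlt
        exact hμ (h1 μ (not_le.1 hlt))
      exact low_mono d this hm
    · refine ⟨(x0, x0), fun h => ⟨fun h' => absurd ⟨h, h'⟩ he, fun μ h' => absurd rfl h'⟩⟩
  choose P hP using key
  refine ⟨P, ?_, fun μ => ?_⟩
  · have h0 : {e : Two X | Dep d (∅ : Set W1) e}.Countable := by
      have := fin_dep d ∅
      simpa using this
    refine h0.mono ?_
    rintro e ⟨he, h⟩
    by_contra hn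
    exact (hP e he).1 hn h
  · refine (low_ct d μ).mono ?_
    rintro e ⟨he, h⟩
    exact (hP e he).2 μ h

end Pool.Agent.H641.CP
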