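import Pool.Agent.H641.CP.Space

/-!
# `C_p(X, 2)` is Lindelöf
-/

set_option autoImplicit false

namespace Pool.Agent.H641.CP

open Set Topology

variable {I : Type}

lemma codes_ct {H : Set I} (hH : H.Countable) : {c : Code I | ∀ σ, (c.2 σ).1 ∈ H}.Countable := by
  have : Countable H := hH.to_subtype
  let g : (Σ m : ℕ, ((Fin m → Bool) → H × (Fin 3 → Bool))) → Code I := fun c' =>
    ⟨c'.1, fun σ => (((c'.2 σ).1 : I), (c'.2 σ).2)⟩
  refine (Set.countable_range g).mono ?_
  rintro ⟨m, c⟩ hc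
  exact ⟨⟨m, fun σ => (⟨(c σ).1, hc σ⟩, (c σ).2)⟩, rfl⟩

lemma closure_codes (h0 : I) (Φ : Code I → Set I) (hΦ : ∀ c, (Φ c).Countable) :
    ∃ H : Set I, H.Countable ∧ h0 ∈ H ∧ ∀ c : Code I, (∀ σ, (c.2 σ).1 ∈ H) → Φ c ⊆ H := by
  classical
  let s : ℕ → Set I := Nat.rec {h0} fun _ t => t ∪ ⋃ c ∈ {c : Code I | ∀ σ, (c.2 σ).1 ∈ t}, Φ c
  have h1 : ∀ n, (s n).Countable := fun n => by
    induction n with
    | zero => exact countable_singleton h0
    | succ n ih => exact ih.union ((codes_ct ih).biUnion fun c _ => hΦ c)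
  have h2 : Monotone s := monotone_nat_of_le_succ fun n => subset_union_left
  refine ⟨⋃ n, s n, countable_iUnion h1, mem_iUnion.2 ⟨0, rfl⟩, fun c hc => ?_⟩
  have h3 : ∀ σ, ∃ n, (c.2 σ).1 ∈ s n := fun σ => mem_iUnion.1 (hc σ)
  choose n hn using h3
  have h4 : ∀ σ, (c.2 σ).1 ∈ s (Finset.univ.sup n) := fun σ =>
    h2 (Finset.le_sup (Finset.mem_univ σ)) (hn σ)
  refine Subset.trans ?_ (subset_iUnion s (Finset.univ.sup n + 1))
  refine Subset.trans ?_ (subset_union_right (s := s (Finset.univ.sup n)))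
  exact subset_biUnion_of_mem (u := Φ) h4

variable (z : I → K × K)

/-- `C_p(X, 2)` -/
abbrev Cp : Type := {f : XX z → Bool // Continuous f}

/-- the element of `C_p(X, 2)` given by a code -/
def evc (c : Code I) : Cp z := ⟨ev z c, ev_cont z c⟩

lemma exists_box {X : Type} [TopologicalSpace X] {U : Set {f : X → Bool // Continuous f}}
    (hU : IsOpen U) {f : {f : X → Bool // Continuous f}} (hf : f ∈ U) :
    ∃ P : Finset X, ∀ g : {f : X → Bool // Continuous f}, (∀ p ∈ P, g.1 p = f.1 p) → g ∈ U := by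
  obtain ⟨V, hV, rfl⟩ := isOpen_induced_iff.1 hU
  obtain ⟨P, u, h1, h2⟩ := isOpen_pi_iff.1 hV f.1 hf
  refine ⟨P, fun g hg => h2 fun p hp => ?_⟩
  rw [hg p hp]
  exact (h1 p hp).2

lemma maj : ∀ φ : Fin 3 → Bool, ∃ k : Fin 3, ∃ j : Bool, ∀ i, i ≠ k → φ i = j := by decide

/-- the property of the family which is used -/
def FamProp : Prop := Function.Injective (fun i => (z i).1) ∧
  ∀ B : ℕ → Finset K, ∃ J : Set I, J.Countable ∧ ∀ (A : Finset I) (c : I → Fin 3) (N : ℕ),
    (∀ β ∈ A, β ∉ J) → ∃ n, N ≤ n ∧ ∀ β ∈ A, Ok (B n) n (z β) (c β)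

theorem lindelof [hI : Nonempty I] (hz : FamProp z) : LindelofSpace (Cp z) := by
  classical
  obtain ⟨hinj, hR⟩ := hz
  refine ⟨isLindelof_of_countable_subcover fun {ι} U hUo hUc => ?_⟩
  have h1 : ∀ f : Cp z, ∃ i : ι, ∃ P : Finset (XX z),
      ∀ g : Cp z, (∀ p ∈ P, g.1 p = f.1 p) → g ∈ U i := fun f => by
    obtain ⟨i, hi⟩ := mem_iUnion.1 (hUc (mem_univ f))
    exact ⟨i, exists_box (hUo i) hi⟩
  choose ix P hP using h1
  choose J hJc hJ using hR
  obtain ⟨h0⟩ := hI
  let mk (m n : ℕ) (c : (Fin m → Bool) → I × (Fin 3 → Bool)) (s : (Fin n → Bool) → Option Bool) :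
      (Fin n → Bool) → I × (Fin 3 → Bool) := fun τ =>
    match s τ with
    | none => c (res m (exx τ))
    | some b => (h0, fun _ => b)
  let BB (c : Code I) : ℕ → Finset K := fun n =>
    Finset.univ.biUnion fun s : (Fin n → Bool) → Option Bool =>
      (P (evc z ⟨n, mk c.1 n c.2 s⟩)).image (pr z)
  obtain ⟨H, hHc, hH0, hH⟩ := closure_codes h0 (fun c => J (BB c)) (fun c => hJc _)
  refine ⟨(fun c => ix (evc z c)) '' {c : Code I | ∀ σ, (c.2 σ).1 ∈ H}, (codes_ct hHc).image _,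
    fun f _ => ?_⟩
  have : Nonempty I := ⟨h0⟩
  obtain ⟨c, hc⟩ := structure_thm z hinj f.1 f.2
  choose kk jj hkj using maj
  let c0 : Code I := ⟨c.1, fun σ => if (c.2 σ).1 ∈ H then c.2 σ else (h0, fun _ => false)⟩
  have hc0 : ∀ σ, (c0.2 σ).1 ∈ H := fun σ => by
    show (if (c.2 σ).1 ∈ H then c.2 σ else (h0, fun _ => false)).1 ∈ H
    split
    · assumption
    · exact hH0
  let A : Finset I := (Finset.univ.image fun σ => (c.2 σ).1).filter (· ∉ H)
  let cc : I → Fin 3 := fun β => kk (c.2 (res c.1 (z β).1)).2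
  obtain ⟨n, hn, hok⟩ := hJ (BB c0) A cc c.1 (fun β hβ hJ' =>
    (Finset.mem_filter.1 hβ).2 (hH c0 hc0 hJ'))
  let s : (Fin n → Bool) → Option Bool := fun τ =>
    if (c.2 (res c.1 (exx τ))).1 ∈ H then none else
      some (if τ = res n (z (c.2 (res c.1 (exx τ))).1).1 then jj (c.2 (res c.1 (exx τ))).2
        else (c.2 (res c.1 (exx τ))).2 (col z (c.2 (res c.1 (exx τ))).1 (exx τ)))
  let c' : Code I := ⟨n, mk c.1 n c0.2 s⟩
  have hc' : ∀ σ, (c'.2 σ).1 ∈ H := fun τ => by
    show (mk c.1 n c0.2 s τ).1 ∈ H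
    simp only [mk]
    split
    · exact hc0 _
    · exact hH0
  refine mem_iUnion₂.2 ⟨ix (evc z c'), ⟨c', hc', rfl⟩, hP (evc z c') f fun p hp => ?_⟩
  have hxB : pr z p ∈ BB c0 n :=
    Finset.mem_biUnion.2 ⟨s, Finset.mem_univ _, Finset.mem_image_of_mem _ hp⟩
  have hσ : res c.1 (exx (res n (pr z p))) = res c.1 (pr z p) := res_res hn _
  rw [hc]
  show ev z c p = ev z c' p
  by_cases h2 : (c.2 (res c.1 (pr z p))).1 ∈ H
  · have hs : s (res n (pr z p)) = none := by
      simp only [s, hσ, if_pos h2]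
    have h3 : c'.2 (res n (pr z p)) = c.2 (res c.1 (pr z p)) := by
      show mk c.1 n c0.2 s (res n (pr z p)) = _
      simp only [mk, hs]
      show c0.2 (res c.1 (exx (res n (pr z p)))) = _
      rw [hσ]
      exact if_pos h2
    show (c.2 (res c.1 (pr z p))).2 (co z (c.2 (res c.1 (pr z p))).1 p) =
      (c'.2 (res n (pr z p))).2 (co z (c'.2 (res n (pr z p))).1 p)
    rw [h3]
  · have hβA : (c.2 (res c.1 (pr z p))).1 ∈ A :=
      Finset.mem_filter.2 ⟨Finset.mem_image_of_mem _ (Finset.mem_univ _), h2⟩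
    have hev : ∀ b, s (res n (pr z p)) = some b → ev z c' p = b := fun b hb => by
      have h3 : c'.2 (res n (pr z p)) = (h0, fun _ => b) := by
        show mk c.1 n c0.2 s (res n (pr z p)) = _
        simp only [mk, hb]
      show (c'.2 (res n (pr z p))).2 (co z (c'.2 (res n (pr z p))).1 p) = b
      rw [h3]
    show (c.2 (res c.1 (pr z p))).2 (co z (c.2 (res c.1 (pr z p))).1 p) = ev z c' p
    set β := (c.2 (res c.1 (pr z p))).1 with hβ
    set φ := (c.2 (res c.1 (pr z p))).2 with hφ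
    by_cases h3 : res n (pr z p) = res n (z β).1
    · have hagree : ∀ i < n, pr z p i = (z β).1 i := fun i hi => congrFun h3 ⟨i, hi⟩
      obtain ⟨h4, h5⟩ := hok β hβA (pr z p) hxB hagree
      have hs : s (res n (pr z p)) = some (jj φ) := by
        simp only [s, hσ, ← hβ, ← hφ, if_neg h2, if_pos h3]
      rw [hev _ hs, co_eq z β h4]
      refine hkj φ _ ?_
      have h6 : res c.1 (z β).1 = res c.1 (pr z p) := by
        funext i; exact (hagree i (by omega)).symm
      have h7 : cc β = kk φ := by simp only [cc, h6, ← hφ]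
      rw [← h7]
      exact h5
    · have hs : s (res n (pr z p)) = some (φ (col z β (exx (res n (pr z p))))) := by
        simp only [s, hσ, ← hβ, ← hφ, if_neg h2, if_neg h3]
      rw [hev _ hs]
      have h4 : ∃ i < n, pr z p i ≠ (z β).1 i := by
        by_contra hcon
        push Not at hcon
        exact h3 (funext fun i => hcon i i.2)
      obtain ⟨i, hi, hne⟩ := h4
      have hx : pr z p ≠ (z β).1 := fun e => hne (by rw [e])
      have h5 : fd (pr z p) (z β).1 < n := by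
        by_contra hcon
        exact hne (fd_lt (by omega))
      rw [co_eq z β hx]
      congr 1
      refine ((col_loc z β hx (y := exx (res n (pr z p))) ?_).2).symm
      exact fun k hk => exx_res_mem n (pr z p) k (by omega)

end Pool.Agent.H641.CP
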