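import Pool.Agent.H641.CP.Pos
import Pool.Graph.R_pool_sql_team_ae5b0c61.H15.CC1

/-!
# Consequences of Martin's axiom
-/

set_option autoImplicit false

namespace Pool.Agent.H641.CP

open Set Topology Cardinal Pool.Agent.W684 Pool.Agent.W684.FM

lemma W1_bdd {s : Set W1} (hs : s.Countable) : ∃ i, ∀ j ∈ s, j < i := Pool.Agent.H15.CC.I_bdd hs

lemma W1_unc : ¬ (univ : Set W1).Countable := fun h => by
  obtain ⟨i, hi⟩ := W1_bdd h
  exact lt_irrefl _ (hi i trivial)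

/-- some condition forces that uncountably many of the conditions `u α` are in the generic
filter -/
lemma exists_pos {P : Type} [Preorder P] (hccc : IsCCC P) (u : W1 → P) :
    ∃ p0 : P, ∀ q ≤ p0, ∀ γ : W1, ∃ α > γ, ∃ r ≤ q, r ≤ u α := by
  classical
  by_contra hcon
  push Not at hcon
  -- the bad conditions
  let Bad : Set P := {q | ∃ γ : W1, ∀ α > γ, ∀ r ≤ q, ¬ r ≤ u α}
  have hdense : ∀ p, ∃ q ≤ p, q ∈ Bad := fun p => by
    obtain ⟨q, hq, γ, h⟩ := hcon p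
    exact ⟨q, hq, γ, h⟩
  obtain ⟨A, hA⟩ := zorn_subset {A : Set P | A ⊆ Bad ∧
      ∀ p ∈ A, ∀ q ∈ A, p ≠ q → ¬ ∃ r : P, r ≤ p ∧ r ≤ q} (by
    intro c hc hchain
    refine ⟨⋃₀ c, ⟨sUnion_subset fun s hs => (hc hs).1, ?_⟩, fun s hs => subset_sUnion_of_mem hs⟩
    rintro p ⟨s, hs, hps⟩ q ⟨t, ht, hqt⟩ hne
    rcases hchain.total hs ht with h | h
    · exact (hc ht).2 p (h hps) q hqt hne
    · exact (hc hs).2 p hps q (h hqt) hne)
  obtain ⟨hAB, hAi⟩ := hA.prop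
  have hAc := hccc A hAi
  have hγ : ∀ q : A, ∃ γ : W1, ∀ α > γ, ∀ r ≤ q.1, ¬ r ≤ u α := fun q => hAB q.2
  choose γ hγ using hγ
  have : Countable A := hAc.to_subtype
  obtain ⟨α, hα⟩ := W1_bdd (countable_range γ)
  obtain ⟨q, hq, hqB⟩ := hdense (u α)
  have hcomp : ∃ q' : A, ∃ r, r ≤ q ∧ r ≤ q'.1 := by
    by_contra hno
    push Not at hno
    have hmem : insert q A ∈ {A : Set P | A ⊆ Bad ∧
        ∀ p ∈ A, ∀ q ∈ A, p ≠ q → ¬ ∃ r : P, r ≤ p ∧ r ≤ q} := by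
      refine ⟨insert_subset hqB hAB, ?_⟩
      rintro p (rfl | hp) p' (rfl | hp') hne ⟨r, h1, h2⟩
      · exact hne rfl
      · exact hno ⟨p', hp'⟩ r h1 h2
      · exact hno ⟨p, hp⟩ r h2 h1
      · exact hAi p hp p' hp' hne ⟨r, h1, h2⟩
    have hqA : q ∈ A := hA.le_of_ge hmem (subset_insert q A) (mem_insert q A)
    exact hno ⟨q, hqA⟩ q le_rfl le_rfl
  obtain ⟨q', r, h1, h2⟩ := hcomp
  exact hγ q' α (hα _ ⟨q', rfl⟩) r h2 (h1.trans hq)

/-- under Martin's axiom there is a filter meeting `ℵ₁` given dense sets which contains `u α` for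
uncountably many `α` -/
theorem exists_filter (hMA : MartinAxiomCard ℵ₁) {P : Type} [Preorder P] (hccc : IsCCC P)
    (u : W1 → P) {ι : Type} (hι : #ι ≤ ℵ₁) (D : ι → Set P) (hD : ∀ i p, ∃ q ∈ D i, q ≤ p) :
    ∃ G : Set P, (∀ p ∈ G, ∀ q : P, p ≤ q → q ∈ G) ∧
      (∀ p ∈ G, ∀ q ∈ G, ∃ r ∈ G, r ≤ p ∧ r ≤ q) ∧ (∀ i, (G ∩ D i).Nonempty) ∧
      ∀ γ : W1, ∃ α > γ, u α ∈ G := by
  classical
  obtain ⟨p0, hp0⟩ := exists_pos hccc u
  let Q := {q : P // q ≤ p0}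
  have hQ : IsCCC Q := by
    intro A hA
    have : (Subtype.val '' A).Countable := by
      apply hccc
      rintro _ ⟨p, hp, rfl⟩ _ ⟨q, hq, rfl⟩ hne ⟨r, h1, h2⟩
      exact hA p hp q hq (fun h => hne (by rw [h])) ⟨⟨r, h1.trans p.2⟩, h1, h2⟩
    exact (Set.countable_of_injective_of_countable_image Subtype.val_injective.injOn this)
  have : Nonempty Q := ⟨⟨p0, le_rfl⟩⟩
  let DD : ι ⊕ W1 → Set Q := Sum.elim (fun i => {q | q.1 ∈ D i}) (fun γ => {q | ∃ α > γ, q.1 ≤ u α})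
  obtain ⟨G, _, hG2, hG3, hG4⟩ := hMA Q hQ (range DD) (by
      refine Cardinal.mk_range_le.trans ?_
      rw [Cardinal.mk_sum, Cardinal.lift_id, Cardinal.lift_id, W1_card]
      exact Cardinal.add_le_of_le (Cardinal.aleph0_le_aleph 1) hι le_rfl) (by
      rintro _ ⟨i | γ, rfl⟩ p
      · obtain ⟨q, hq, hqp⟩ := hD i p.1
        exact ⟨⟨q, hqp.trans p.2⟩, hq, hqp⟩
      · obtain ⟨α, hα, r, hr, hru⟩ := hp0 p.1 p.2 γ
        exact ⟨⟨r, hr.trans p.2⟩, ⟨α, hα, hru⟩, hr⟩)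
  refine ⟨{p | ∃ q ∈ G, q.1 ≤ p}, ?_, ?_, fun i => ?_, fun γ => ?_⟩
  · rintro p ⟨q, hq, hqp⟩ p' h; exact ⟨q, hq, hqp.trans h⟩
  · rintro p ⟨q, hq, hqp⟩ p' ⟨q', hq', hqp'⟩
    obtain ⟨r, hr, h1, h2⟩ := hG3 q hq q' hq'
    exact ⟨r.1, ⟨r, hr, le_rfl⟩, (show r.1 ≤ q.1 from h1).trans hqp,
      (show r.1 ≤ q'.1 from h2).trans hqp'⟩
  · obtain ⟨q, hq, hqD⟩ := hG4 (DD (Sum.inl i)) ⟨_, rfl⟩
    exact ⟨q.1, ⟨q, hq, le_rfl⟩, hqD⟩
  · obtain ⟨q, hq, α, hα, hqα⟩ := hG4 (DD (Sum.inr γ)) ⟨_, rfl⟩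
    exact ⟨α, hα, q, hq, hqα⟩

variable {X : Type} [TopologicalSpace X] [CompactSpace X] [T2Space X] [TotallyDisconnectedSpace X]

/-- **Under Martin's axiom for `ℵ₁` dense sets, if `C_p(X, 2)` is Lindelöf then every family of
`ℵ₁` elements of it has an accumulation point in the sense of agreement on countable sets.** -/
theorem exists_branch (hMA : MartinAxiomCard ℵ₁) (hL : LindelofSpace (Two X)) (d : W1 → Two X) :
    ∃ e ∈ BB d, ∀ A : Set X, A.Countable → ¬ {α | ∀ x ∈ A, (d α).1 x = e.1 x}.Countable := by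
  classical
  rcases isEmpty_or_nonempty X with hX | hX
  · obtain ⟨μ⟩ := (inferInstance : Nonempty W1)
    refine ⟨d μ, mem_BB d μ, fun A _ h => W1_unc (h.mono fun α _ => ?_)⟩
    intro x
    exact (hX.false x).elim
  by_contra hcon
  push Not at hcon
  have hcon' : ∀ e : BB d, ∃ A : Set X, A.Countable ∧
      {α | ∀ x ∈ A, (d α).1 x = e.1.1 x}.Countable := fun e => hcon e.1 e.2
  choose A hA hEx using hcon'
  obtain ⟨P, hP0, hP⟩ := pairs d
  obtain ⟨ν⟩ : Nonempty (BB d ↪ W1) := by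
    rw [← Cardinal.le_def, W1_card]; exact BB_card d
  obtain ⟨x0⟩ := hX
  have hq : ∀ e : BB d, ∃ g : ℕ → X, A e ⊆ range g := fun e => by
    obtain ⟨g, hg⟩ := ((hA e).union (countable_singleton x0)).exists_eq_range ⟨x0, Or.inr rfl⟩
    exact ⟨g, by rw [← hg]; exact subset_union_left⟩
  choose g hg using hq
  let q : BB d → ℕ → X := fun e n => Nat.casesOn n (P e.1).1 fun n =>
    Nat.casesOn n (P e.1).2 fun n => g e n
  let bad : BB d → ℕ → W1 → Prop := fun e n α => ν e < α ∧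
    (¬ ∀ x ∈ A e, (d α).1 x = e.1.1 x) ∧ ∀ i ≤ n + 1, (d α).1 (q e i) = e.1.1 (q e i)
  have hX' : Nonempty X := ⟨x0⟩
  have hccc : IsCCC (Cnd bad) := by
    refine cnd_ccc hL d (fun e => e.1) (fun e => P e.1) ν ν.injective ?_ (fun μ => ?_)
      (fun e n α h => h.1) (fun e n α h => ⟨h.2.2 0 (by omega), h.2.2 1 (by omega)⟩)
    · refine (hP0.preimage (f := fun e : BB d => e.1) Subtype.val_injective).mono ?_
      intro e he; exact ⟨e.2, he⟩
    · refine ((hP μ).preimage (f := fun e : BB d => e.1) Subtype.val_injective).mono ?_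
      intro e he; exact ⟨e.2, he⟩
  let u : W1 → Cnd bad := fun α => ⟨{α}, ∅, fun _ => 0, by simp⟩
  let D : BB d → Set (Cnd bad) := fun e => {p | e ∈ p.dom}
  have hD : ∀ e p, ∃ p' ∈ D e, p' ≤ p := by
    intro e p
    by_cases he : e ∈ p.dom
    · exact ⟨p, he, le_rfl⟩
    have h1 : ∀ α : W1, ∃ n, ¬ bad e n α := by
      intro α
      by_cases h : ∀ x ∈ A e, (d α).1 x = e.1.1 x
      · exact ⟨0, fun hb => hb.2.1 h⟩
      · push Not at h
        obtain ⟨x, hx, hne⟩ := h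
        obtain ⟨n, rfl⟩ := hg e hx
        exact ⟨n + 1, fun hb => hne (hb.2.2 (n + 2) (by omega))⟩
    have hmono : ∀ α n m, n ≤ m → bad e m α → bad e n α := fun α n m h hb =>
      ⟨hb.1, hb.2.1, fun i hi => hb.2.2 i (by omega)⟩
    choose n hn using h1
    let N := p.a.sup n
    refine ⟨⟨p.a, insert e p.dom, fun e' => if e' = e then N else p.n e', ?_⟩,
      Finset.mem_insert_self _ _, ?_⟩
    · intro e' he' α hα
      rcases Finset.mem_insert.1 he' with rfl | he'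
      · rw [if_pos rfl]
        exact fun hb => hn α (hmono α _ _ (Finset.le_sup hα) hb)
      · rw [if_neg (fun h => he (by rw [← h]; exact he'))]
        exact p.ok e' he' α hα
    · refine ⟨Finset.Subset.refl _, Finset.subset_insert _ _, fun e' he' => ?_⟩
      exact if_neg (fun h => he (by rw [← h]; exact he'))
  obtain ⟨G, hG1, hG2, hG3, hG4⟩ := exists_filter hMA hccc u (BB_card d) D hD
  choose pe hpe using hG3
  let N : BB d → ℕ := fun e => (pe e).n e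
  have hkey : ∀ e : BB d, ∀ α, u α ∈ G → ¬ bad e (N e) α := by
    intro e α hα
    obtain ⟨r, hr, h1, h2⟩ := hG2 (pe e) (hpe e).1 (u α) hα
    have h3 : α ∈ r.a := h2.1 (by simp [u])
    have h4 : e ∈ r.dom := h1.2.1 (hpe e).2
    have h5 : r.n e = N e := h1.2.2 e (hpe e).2
    rw [← h5]
    exact r.ok e h4 α h3
  -- the closed discrete family
  have hLB : IsLindelof (BB d) := (BB_closed d).isLindelof
  let O : BB d → Set (Two X) := fun e => {f | ∀ i ≤ N e + 1, f.1 (q e i) = e.1.1 (q e i)}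
  have hO : ∀ e, IsOpen (O e) := fun e => by
    have : O e = ⋂ i ∈ Finset.range (N e + 2), (fun f : Two X => f.1 (q e i)) ⁻¹'
        {e.1.1 (q e i)} := by
      ext f
      simp only [O, mem_ofPred_eq, mem_iInter, Finset.mem_range, mem_preimage, mem_singleton_iff]
      exact forall_congr' fun i => ⟨fun h hi => h (by omega), fun h hi => h (by omega)⟩
    rw [this]
    exact isOpen_biInter_finset fun i _ => (isOpen_discrete _).preimage (two_eval _)
  obtain ⟨t, ht, hcov⟩ := hLB.elim_countable_subcover O hO fun e he =>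
    mem_iUnion.2 ⟨⟨e, he⟩, fun i _ => rfl⟩
  have hcount : ∀ e : BB d, {α | u α ∈ G ∧ d α ∈ O e}.Countable := by
    intro e
    refine ((Iic_ct (ν e)).union (hEx e)).mono ?_
    rintro α ⟨h1, h2⟩
    by_contra hno
    rw [mem_union, not_or] at hno
    exact hkey e α h1 ⟨not_le.1 hno.1, hno.2, h2⟩
  have hall : {α | u α ∈ G}.Countable := by
    refine (ht.biUnion fun e _ => hcount e).mono fun α hα => ?_
    obtain ⟨e, he, h⟩ := mem_iUnion₂.1 (hcov (mem_BB d α))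
    exact mem_iUnion₂.2 ⟨e, he, hα, h⟩
  obtain ⟨γ, hγ⟩ := W1_bdd hall
  obtain ⟨α, hα, hαG⟩ := hG4 γ
  exact lt_asymm hα (hγ α hαG)

end Pool.Agent.H641.CP
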