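import Pool.Agent.H641.CP.NotL
import Pool.Graph.R_pool_sql_team_ae5b0c61.H15.NL2

/-!
# The square is not normal
-/

set_option autoImplicit false

namespace Pool.Agent.H641.CP

open Set Topology

/-- continuous two-valued functions on a topological sum -/
def sumHomeo (X : Type) [TopologicalSpace X] :
    {f : X ⊕ X → Bool // Continuous f} ≃ₜ
      {f : X → Bool // Continuous f} × {f : X → Bool // Continuous f} where
  toFun f := (⟨fun x => f.1 (Sum.inl x), f.2.comp continuous_inl⟩,
    ⟨fun x => f.1 (Sum.inr x), f.2.comp continuous_inr⟩)
  invFun g := ⟨Sum.elim g.1.1 g.2.1, g.1.2.sumElim g.2.2⟩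
  left_inv f := by
    refine Subtype.ext (funext fun x => ?_)
    rcases x with x | x <;> rfl
  right_inv g := rfl
  continuous_toFun := by
    have h : ∀ y : X ⊕ X, Continuous fun f : {f : X ⊕ X → Bool // Continuous f} => f.1 y :=
      fun y => (continuous_apply y).comp continuous_subtype_val
    exact (Continuous.subtype_mk (continuous_pi fun x => h (Sum.inl x)) _).prodMk
      (Continuous.subtype_mk (continuous_pi fun x => h (Sum.inr x)) _)
  continuous_invFun := by
    refine Continuous.subtype_mk (continuous_pi fun x => ?_) _
    rcases x with x | x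
    · exact (continuous_apply x).comp (continuous_subtype_val.comp continuous_fst)
    · exact (continuous_apply x).comp (continuous_subtype_val.comp continuous_snd)

theorem lindelof_of_normal (X : Type) [TopologicalSpace X] [CompactSpace X] [T2Space X]
    [TotallyDisconnectedSpace X]
    (h : NormalSpace ({f : X → Bool // Continuous f} × {f : X → Bool // Continuous f})) :
    LindelofSpace ({f : X → Bool // Continuous f} × {f : X → Bool // Continuous f}) := by
  have e := sumHomeo X
  have h1 : NormalSpace {f : X ⊕ X → Bool // Continuous f} := e.isClosedEmbedding.normalSpace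
  have h2 : LindelofSpace {f : X ⊕ X → Bool // Continuous f} := Pool.Agent.H15.NL.main
  exact ⟨by
    have := isLindelof_univ (X := {f : X ⊕ X → Bool // Continuous f})
    have h3 := this.image e.continuous
    rwa [Set.image_univ, e.surjective.range_eq] at h3⟩

theorem main_of_fam (h : HasFam) : ∃ (X : Type) (_ : TopologicalSpace X),
    CompactSpace X ∧ T2Space X ∧ TotallyDisconnectedSpace X ∧
    LindelofSpace {f : X → Bool // Continuous f} ∧ NormalSpace {f : X → Bool // Continuous f} ∧
    ¬ LindelofSpace ({f : X → Bool // Continuous f} × {f : X → Bool // Continuous f}) ∧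
    ¬ NormalSpace ({f : X → Bool // Continuous f} × {f : X → Bool // Continuous f}) := by
  obtain ⟨I, z, hI, hz⟩ := h
  have h1 : LindelofSpace (Cp z) := lindelof z hz
  have h2 : ¬ LindelofSpace (Cp z × Cp z) := not_lindelof z hz.1
  exact ⟨XX z, inferInstance, inferInstance, inferInstance, inferInstance, h1, inferInstance, h2,
    fun h3 => h2 (lindelof_of_normal (XX z) h3)⟩

end Pool.Agent.H641.CP
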