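import Pool.Agent.H641.CP.Lind

/-!
# The square of `C_p(X, 2)` has an uncountable closed discrete subset
-/

set_option autoImplicit false

namespace Pool.Agent.H641.CP

open Set Topology

variable {I : Type} (z : I → K × K)

/-- the pair of characteristic functions of the sets of the points of colours `0` and `1` in
the `α`-th colouring -/
noncomputable def DD (α : I) : Cp z × Cp z :=
  (⟨fun p => decide (co z α p = 0), (continuous_of_discreteTopology (f := fun i : Fin 3 =>
      decide (i = 0))).comp (co_cont z α)⟩,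
   ⟨fun p => decide (co z α p = 1), (continuous_of_discreteTopology (f := fun i : Fin 3 =>
      decide (i = 1))).comp (co_cont z α)⟩)

/-- agreement of two pairs at a point -/
def AgP (a b : Cp z × Cp z) (p : XX z) : Prop := a.1.1 p = b.1.1 p ∧ a.2.1 p = b.2.1 p

lemma DD_col {α : I} {p q : XX z} (h : (DD z α).1.1 p = (DD z α).1.1 q ∧
    (DD z α).2.1 p = (DD z α).2.1 q) : co z α p = co z α q := by
  have key : ∀ i j : Fin 3, decide (i = 0) = decide (j = 0) → decide (i = 1) = decide (j = 1) →
    i = j := by decide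
  exact key _ _ h.1 h.2

/-- flipping the value at `n` -/
def flip (x : K) (n : ℕ) : K := fun i => if i = n then !(x i) else x i

lemma flip_ne (x : K) (n : ℕ) : flip x n n ≠ x n := by simp [flip]

lemma flip_eq (x : K) {n i : ℕ} (h : i ≠ n) : flip x n i = x i := by simp [flip, h]

lemma local_not (hz : Function.Injective (fun i => (z i).1)) (g : Cp z × Cp z) (x : K) :
    ∃ n, ∃ P : Finset (XX z), ∃ E : Finset I, ∀ α, (z α).1 ∈ nb x n → α ∉ E →
      ∃ p ∈ P, ¬ AgP z (DD z α) g p := by
  classical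
  by_cases hc : ∃ p q, pr z p = x ∧ pr z q = x ∧ (g.1.1 p, g.2.1 p) ≠ (g.1.1 q, g.2.1 q)
  · obtain ⟨p, q, hp, hq, hne⟩ := hc
    have hx : ∃ β, x = (z β).1 := by
      by_contra hcon
      push Not at hcon
      have : p = q := ext_pt z (by rw [hp, hq]) fun α hα => absurd (hp.symm.trans hα) (hcon α)
      exact hne (by rw [this])
    obtain ⟨β, hβ⟩ := hx
    refine ⟨0, {p, q}, {β}, fun α _ hα => ?_⟩
    by_contra hcon
    push Not at hcon
    have h1 := hcon p (by simp)
    have h2 := hcon q (by simp)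
    have hαβ : x ≠ (z α).1 := fun e => hα (by
      rw [Finset.mem_singleton]
      exact hz (show (z α).1 = (z β).1 by rw [← hβ, e]))
    have h3 : co z α p = co z α q := by rw [co_near z α hαβ hp, co_near z α hαβ hq]
    have h4 : (DD z α).1.1 p = (DD z α).1.1 q ∧ (DD z α).2.1 p = (DD z α).2.1 q := by
      simp only [DD, h3, and_self]
    exact hne (Prod.ext (by rw [← h1.1, ← h2.1]; exact h4.1) (by rw [← h1.2, ← h2.2]; exact h4.2))
  · push Not at hc
    have hcl : IsClosed {p | (g.1.1 p, g.2.1 p) ≠ (g.1.1 (pt z x 0), g.2.1 (pt z x 0))} := by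
      have h1 : Continuous fun p => (g.1.1 p, g.2.1 p) := g.1.2.prodMk g.2.2
      exact (isClosed_discrete {(g.1.1 (pt z x 0), g.2.1 (pt z x 0))}ᶜ).preimage h1
    obtain ⟨n, hn⟩ := avoid z hcl (x := x) fun p hp hpx => hp (hc p _ hpx (pr_pt z x 0))
    have hn' : ∀ p, pr z p ∈ nb x n →
        (g.1.1 p, g.2.1 p) = (g.1.1 (pt z x 0), g.2.1 (pt z x 0)) := fun p hp => by
      simpa using hn p hp
    refine ⟨n + 2, {pt z (flip x n) 0, pt z (flip x (n + 1)) 0}, ∅, fun α hα _ => ?_⟩
    by_contra hcon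
    push Not at hcon
    have h1 := hcon (pt z (flip x n) 0) (by simp)
    have h2 := hcon (pt z (flip x (n + 1)) 0) (by simp)
    have e1 := hn' (pt z (flip x n) 0) (fun i hi => flip_eq x (by omega))
    have e2 := hn' (pt z (flip x (n + 1)) 0) (fun i hi => flip_eq x (by omega))
    have e3 := e1.trans e2.symm
    have h3 : co z α (pt z (flip x n) 0) = co z α (pt z (flip x (n + 1)) 0) := by
      refine DD_col z ⟨?_, ?_⟩
      · rw [h1.1, h2.1]; exact congrArg Prod.fst e3
      · rw [h1.2, h2.2]; exact congrArg Prod.snd e3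
    have f1 : flip x n n ≠ (z α).1 n := by rw [hα n (by omega)]; exact flip_ne x n
    have f2 : flip x (n + 1) (n + 1) ≠ (z α).1 (n + 1) := by
      rw [hα (n + 1) (by omega)]; exact flip_ne x (n + 1)
    have g1 : fd (flip x n) (z α).1 = n :=
      fd_eq (fun i hi => by rw [flip_eq x (by omega), hα i (by omega)]) f1
    have g2 : fd (flip x (n + 1)) (z α).1 = n + 1 :=
      fd_eq (fun i hi => by rw [flip_eq x (by omega), hα i (by omega)]) f2
    rw [co_near z α (fun e => f1 (by rw [e])) (pr_pt z _ 0),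
      co_near z α (fun e => f2 (by rw [e])) (pr_pt z _ 0), col, col, g1, g2] at h3
    exact vv_ne _ _ h3

lemma finite_not (hz : Function.Injective (fun i => (z i).1)) (g : Cp z × Cp z) :
    ∃ P : Finset (XX z), {α | ∀ p ∈ P, AgP z (DD z α) g p}.Finite := by
  classical
  choose n P E h using local_not z hz g
  obtain ⟨t, ht⟩ := CompactSpace.elim_nhds_subcover (fun x : K => nb x (n x))
    (fun x => (nb_open _ _).mem_nhds (mem_nb _ _))
  refine ⟨t.biUnion P, (t.biUnion E).finite_toSet.subset fun α hα => ?_⟩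
  have h1 : (z α).1 ∈ ⋃ y ∈ t, nb y (n y) := by rw [ht]; trivial
  obtain ⟨y, hy, h2⟩ := mem_iUnion₂.1 h1
  by_contra hcon
  have h3 : α ∉ E y := fun h4 => hcon (by
    rw [Finset.mem_coe, Finset.mem_biUnion]; exact ⟨y, hy, h4⟩)
  obtain ⟨p, hp, h4⟩ := h y α h2 h3
  exact h4 (hα p (Finset.mem_biUnion.2 ⟨y, hy, hp⟩))

lemma agP_open (g : Cp z × Cp z) (P : Finset (XX z)) : IsOpen {f | ∀ p ∈ P, AgP z f g p} := by
  have : {f | ∀ p ∈ P, AgP z f g p} = ⋂ p ∈ P, {f | AgP z f g p} := by ext f; simp
  rw [this]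
  refine isOpen_biInter_finset fun p _ => ?_
  have h1 : Continuous fun f : Cp z × Cp z => (f.1.1 p, f.2.1 p) :=
    ((continuous_apply p).comp (continuous_subtype_val.comp continuous_fst)).prodMk
      ((continuous_apply p).comp (continuous_subtype_val.comp continuous_snd))
  have h2 : {f | AgP z f g p} = (fun f : Cp z × Cp z => (f.1.1 p, f.2.1 p)) ⁻¹'
      {(g.1.1 p, g.2.1 p)} := by
    ext f; simp [AgP, Prod.ext_iff]
  rw [h2]
  exact (isOpen_discrete _).preimage h1

theorem not_lindelof [Uncountable I] (hz : Function.Injective (fun i => (z i).1)) :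
    ¬ LindelofSpace (Cp z × Cp z) := by
  intro hL
  choose P hP using finite_not z hz
  obtain ⟨t, ht, hcov⟩ := isLindelof_univ.elim_nhds_subcover (X := Cp z × Cp z)
    (fun g => {f | ∀ p ∈ P g, AgP z f g p})
    (fun g _ => (agP_open z g (P g)).mem_nhds (fun p _ => ⟨rfl, rfl⟩))
  have : (univ : Set I).Countable := by
    refine (Set.Countable.biUnion ht fun g _ => (hP g).countable).mono fun α _ => ?_
    obtain ⟨g, hg, h⟩ := mem_iUnion₂.1 (hcov.2 (mem_univ (DD z α)))
    exact mem_iUnion₂.2 ⟨g, hg, h⟩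
  exact Set.not_countable_univ this

end Pool.Agent.H641.CP
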