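import Pool.Agent.H641.CP.Dep
import Pool.Graph.R_seed8.W684.FM.Ambient
import Pool.Graph.R_seed8.H151.Combi

/-!
# The partial order
-/

set_option autoImplicit false

namespace Pool.Agent.H641.CP

open Set Topology Cardinal Pool.Agent.W684

/-- Conditions: a finite set of indices, and finitely many promises `(e, n)`. -/
structure Cnd {B : Type} (bad : B → ℕ → W1 → Prop) where
  /-- the indices -/
  a : Finset W1
  /-- the domain of the promises -/
  dom : Finset B
  /-- the values -/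
  n : B → ℕ
  /-- the promises are kept -/
  ok : ∀ e ∈ dom, ∀ α ∈ a, ¬ bad e (n e) α

variable {B : Type} {bad : B → ℕ → W1 → Prop}

instance : Preorder (Cnd bad) where
  le p q := q.a ⊆ p.a ∧ q.dom ⊆ p.dom ∧ ∀ e ∈ q.dom, p.n e = q.n e
  le_refl p := ⟨Finset.Subset.refl _, Finset.Subset.refl _, fun _ _ => rfl⟩
  le_trans p q r := by
    rintro ⟨h1, h2, h3⟩ ⟨k1, k2, k3⟩
    exact ⟨k1.trans h1, k2.trans h2, fun e he => (h3 e (k2 he)).trans (k3 e he)⟩

lemma cnd_le {p q : Cnd bad} : p ≤ q ↔ q.a ⊆ p.a ∧ q.dom ⊆ p.dom ∧ ∀ e ∈ q.dom, p.n e = q.n e :=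
  Iff.rfl

/-- if two conditions are incompatible then there is a bad pair -/
lemma incompat {p q : Cnd bad} (hn : ∀ e ∈ p.dom, e ∈ q.dom → p.n e = q.n e)
    (h : ¬ ∃ r : Cnd bad, r ≤ p ∧ r ≤ q) :
    (∃ e ∈ p.dom, e ∉ q.dom ∧ ∃ α ∈ q.a, bad e (p.n e) α) ∨
      ∃ e ∈ q.dom, e ∉ p.dom ∧ ∃ α ∈ p.a, bad e (q.n e) α := by
  classical
  by_contra hcon
  push Not at hcon
  obtain ⟨h1, h2⟩ := hcon
  refine h ⟨⟨p.a ∪ q.a, p.dom ∪ q.dom, fun e => if e ∈ p.dom then p.n e else q.n e, ?_⟩, ?_, ?_⟩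
  · intro e he α hα
    rcases Finset.mem_union.1 he with hep | heq
    · rw [if_pos hep]
      rcases Finset.mem_union.1 hα with hα | hα
      · exact p.ok e hep α hα
      · by_cases heq : e ∈ q.dom
        · rw [hn e hep heq]; exact q.ok e heq α hα
        · exact h1 e hep heq α hα
    · by_cases hep : e ∈ p.dom
      · rw [if_pos hep]
        rcases Finset.mem_union.1 hα with hα | hα
        · exact p.ok e hep α hα
        · rw [hn e hep heq]; exact q.ok e heq α hα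
      · rw [if_neg hep]
        rcases Finset.mem_union.1 hα with hα | hα
        · exact h2 e heq hep α hα
        · exact q.ok e heq α hα
  · refine ⟨Finset.subset_union_left, Finset.subset_union_left, fun e he => ?_⟩
    exact if_pos he
  · refine ⟨Finset.subset_union_right, Finset.subset_union_right, fun e he => ?_⟩
    show (if e ∈ p.dom then p.n e else q.n e) = q.n e
    split
    · rename_i hep; exact hn e hep he
    · rfl

theorem ph {I Y : Type} [Countable Y] (f : I → Y) (J : Set I) (hJ : ¬ J.Countable) :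
    ∃ y, ¬ (J ∩ f ⁻¹' {y}).Countable := by
  by_contra h
  push Not at h
  apply hJ
  refine (countable_iUnion h).mono ?_
  intro x hx
  exact mem_iUnion.2 ⟨f x, hx, rfl⟩

/-- a complete accumulation point -/
lemma exists_cap {Y J : Type} [TopologicalSpace Y] [CompactSpace Y] [Nonempty Y]
    (s : J → Y) (hJ : ¬ Countable J) :
    ∃ y, ∀ W : Set Y, IsOpen W → y ∈ W → ¬ {j | s j ∈ W}.Countable := by
  by_contra hcon
  push Not at hcon
  choose W hW hyW hc using hcon
  obtain ⟨t, ht⟩ := CompactSpace.elim_nhds_subcover W (fun y => (hW y).mem_nhds (hyW y))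
  apply hJ
  rw [← Set.countable_univ_iff]
  refine ((Finset.countable_toSet t).biUnion fun y _ => hc y).mono fun j _ => ?_
  have : s j ∈ ⋃ y ∈ t, W y := by rw [ht]; trivial
  obtain ⟨y, hy, h⟩ := mem_iUnion₂.1 this
  exact mem_iUnion₂.2 ⟨y, hy, h⟩

variable {X : Type} [TopologicalSpace X] [CompactSpace X] [T2Space X]
    [TotallyDisconnectedSpace X] [Nonempty X]

theorem cnd_ccc (hL : LindelofSpace (Two X)) (d : W1 → Two X) (fe : B → Two X)
    (P : B → X × X) (ν : B → W1) (hν : Function.Injective ν)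
    (hP0 : {e | (fe e).1 (P e).1 = (fe e).1 (P e).2}.Countable)
    (hP : ∀ μ, {e | (d μ).1 (P e).1 ≠ (d μ).1 (P e).2}.Countable)
    (hbad1 : ∀ e n α, bad e n α → ν e < α)
    (hbad2 : ∀ e n α, bad e n α → (d α).1 (P e).1 = (fe e).1 (P e).1 ∧
      (d α).1 (P e).2 = (fe e).1 (P e).2) : IsCCC (Cnd bad) := by
  classical
  intro J hJ
  by_contra hunc
  obtain ⟨J1, R, hJ1, hJ1u, hR, hRd⟩ :=
    Pool.Agent.H151.delta_system (fun p : Cnd bad => p.dom) J hunc
  obtain ⟨w, hw⟩ := ph (fun p : Cnd bad => fun e : R => p.n e) J1 hJ1u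
  obtain ⟨k, hk⟩ := ph (fun p : Cnd bad => (p.dom \ R).card) _ hw
  set J3 := J1 ∩ (fun p : Cnd bad => fun e : R => p.n e) ⁻¹' {w} ∩
    (fun p : Cnd bad => (p.dom \ R).card) ⁻¹' {k} with hJ3
  have h31 : ∀ p ∈ J3, p ∈ J1 := fun p hp => hp.1.1
  have hval : ∀ p ∈ J3, ∀ q ∈ J3, ∀ e ∈ R, p.n e = q.n e := by
    intro p hp q hq e he
    have e1 := congrFun (show (fun e : R => p.n e) = w from hp.1.2) ⟨e, he⟩
    have e2 := congrFun (show (fun e : R => q.n e) = w from hq.1.2) ⟨e, he⟩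
    exact e1.trans e2.symm
  have hex : ∀ C : Set B, C.Countable → {q | q ∈ J3 ∧ ∃ e ∈ q.dom, e ∉ R ∧ e ∈ C}.Countable := by
    intro C hC
    have h1 : ∀ e ∈ C, {q | q ∈ J3 ∧ e ∈ q.dom ∧ e ∉ R}.Countable := by
      intro e _
      refine Set.Subsingleton.countable ?_
      rintro p ⟨hp, hsp, hsR⟩ q ⟨hq, hsq, _⟩
      by_contra hne
      exact hsR (hRd p (h31 p hp) q (h31 q hq) hne e hsp hsq)
    refine (hC.biUnion h1).mono ?_
    rintro q ⟨hq, e, he, heR, heC⟩
    exact mem_biUnion heC ⟨hq, he, heR⟩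
  let J4 : Set (Cnd bad) := J3 \ {q | q ∈ J3 ∧ ∃ e ∈ q.dom, e ∉ R ∧
    e ∈ {e | (fe e).1 (P e).1 = (fe e).1 (P e).2}}
  have hJ4u : ¬ J4.Countable := by
    intro h
    apply hk
    refine (h.union (hex _ hP0)).mono ?_
    intro p hp
    by_cases hp' : p ∈ {q | q ∈ J3 ∧ ∃ e ∈ q.dom, e ∉ R ∧
      e ∈ {e | (fe e).1 (P e).1 = (fe e).1 (P e).2}}
    · exact Or.inr hp'
    · exact Or.inl ⟨hp, hp'⟩
  -- the points
  have henum : ∀ p : J4, ∃ g : Fin k → B, (∀ i, g i ∈ p.1.dom \ R) ∧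
      ∀ e ∈ p.1.dom \ R, ∃ i, g i = e := by
    intro p
    have hcard : (p.1.dom \ R).card = k := p.2.1.2
    refine ⟨fun i => ((p.1.dom \ R).equivFinOfCardEq hcard).symm i, fun i => ?_, fun e he => ?_⟩
    · exact (((p.1.dom \ R).equivFinOfCardEq hcard).symm i).2
    · exact ⟨(p.1.dom \ R).equivFinOfCardEq hcard ⟨e, he⟩, by simp⟩
  choose g hg1 hg2 using henum
  let s : J4 → (Fin k × Bool → X) := fun p i =>
    if i.2 then (P (g p i.1)).1 else (P (g p i.1)).2
  obtain ⟨y, hy⟩ := exists_cap s (fun h => hJ4u (Set.countable_coe_iff.1 h))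
  have hdiag : ∀ i μ, (d μ).1 (y (i, true)) = (d μ).1 (y (i, false)) := by
    intro i μ
    by_contra hne
    have hWo : IsOpen {u : Fin k × Bool → X | (d μ).1 (u (i, true)) ≠ (d μ).1 (u (i, false))} := by
      have h1 : Continuous fun u : Fin k × Bool → X =>
          ((d μ).1 (u (i, true)), (d μ).1 (u (i, false))) :=
        ((d μ).2.comp (continuous_apply _)).prodMk ((d μ).2.comp (continuous_apply _))
      exact (isOpen_discrete {q : Bool × Bool | q.1 ≠ q.2}).preimage h1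
    refine hy _ hWo hne ?_
    have h2 := hex _ (hP μ)
    refine (h2.preimage (f := fun p : J4 => p.1) Subtype.val_injective).mono ?_
    intro p hp
    have h3 := Finset.mem_sdiff.1 (hg1 p i)
    exact ⟨p.2.1, g p i, h3.1, h3.2, hp⟩
  have hycl : y ∈ closure (range s) := by
    rw [mem_closure_iff]
    intro W hW hyW
    by_contra hcon
    refine hy W hW hyW ?_
    have : {j | s j ∈ W} = ∅ := by
      rw [Set.eq_empty_iff_forall_notMem]
      intro j hj
      exact hcon ⟨s j, hj, j, rfl⟩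
    rw [this]; exact countable_empty
  obtain ⟨S', hS', hS'c, hyS'⟩ := tight hL hycl
  have hsec : ∀ u : S', ∃ p : J4, s p = u.1 := fun u => hS' u.2
  choose sec hsecs using hsec
  have hS'ct : Countable S' := hS'c.to_subtype
  let Jc : Set J4 := range sec
  have hJc : Jc.Countable := countable_range sec
  let C : Set B := {e | ∃ p ∈ Jc, ∃ α ∈ p.1.a, ν e < α}
  have hC : C.Countable := by
    have h1 : ∀ α : W1, {e : B | ν e < α}.Countable := fun α => (Iio_ct α).preimage hν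
    refine (hJc.biUnion (t := fun p _ => ⋃ α ∈ p.1.a, {e : B | ν e < α}) fun p _ =>
      (Finset.countable_toSet p.1.a).biUnion fun α _ => h1 α).mono ?_
    rintro e ⟨p, hp, α, hα, h⟩
    exact mem_iUnion₂.2 ⟨p, hp, mem_iUnion₂.2 ⟨α, hα, h⟩⟩
  have hq : ∃ q : J4, q ∉ Jc ∧ ∀ e ∈ q.1.dom, e ∉ R → e ∉ C := by
    by_contra hcon
    push Not at hcon
    apply hJ4u
    have h1 := (hJc.image Subtype.val).union (hex C hC)
    refine h1.mono fun p hp => ?_
    by_cases hpc : (⟨p, hp⟩ : J4) ∈ Jc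
    · exact Or.inl ⟨⟨p, hp⟩, hpc, rfl⟩
    · obtain ⟨e, he1, he2, he3⟩ := hcon ⟨p, hp⟩ hpc
      exact Or.inr ⟨hp.1, e, he1, he2, he3⟩
  obtain ⟨q, hqJ, hqC⟩ := hq
  -- the closed set
  let O : Set (Fin k × Bool → X) := {u | ∃ i : Fin k, ∃ α ∈ q.1.a,
    (d α).1 (u (i, true)) ≠ (d α).1 (u (i, false))}
  have hO : IsClosed O := by
    have : O = ⋃ i : Fin k, ⋃ α ∈ q.1.a,
        {u | (d α).1 (u (i, true)) ≠ (d α).1 (u (i, false))} := by
      ext u; simp only [O, mem_ofPred_eq, mem_iUnion, exists_prop]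
    rw [this]
    refine isClosed_iUnion_of_finite fun i => ?_
    refine Set.Finite.isClosed_biUnion (Finset.finite_toSet q.1.a) fun α _ => ?_
    have h1 : Continuous fun u : Fin k × Bool → X =>
        ((d α).1 (u (i, true)), (d α).1 (u (i, false))) :=
      ((d α).2.comp (continuous_apply _)).prodMk ((d α).2.comp (continuous_apply _))
    exact (isClosed_discrete {q : Bool × Bool | q.1 ≠ q.2}).preimage h1
  have hsub : S' ⊆ O := by
    intro u hu
    set p := sec ⟨u, hu⟩ with hp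
    have hsp : s p = u := hsecs ⟨u, hu⟩
    have hpJ : p ∈ Jc := ⟨_, rfl⟩
    have hpq : p.1 ≠ q.1 := fun h => hqJ (by rw [← Subtype.ext h]; exact hpJ)
    have hinc := hJ p.1 (hJ1 (h31 _ p.2.1)) q.1 (hJ1 (h31 _ q.2.1)) hpq
    have hcommon : ∀ e ∈ p.1.dom, e ∈ q.1.dom → e ∈ R := fun e h1 h2 =>
      hRd p.1 (h31 _ p.2.1) q.1 (h31 _ q.2.1) hpq e h1 h2
    rcases incompat (fun e h1 h2 => hval _ p.2.1 _ q.2.1 e (hcommon e h1 h2)) hinc with
      ⟨e, he1, he2, α, hα, hb⟩ | ⟨e, he1, he2, α, hα, hb⟩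
    · have heR : e ∉ R := fun h => he2 (hR q.1 (h31 _ q.2.1) h)
      obtain ⟨i, hi⟩ := hg2 p e (Finset.mem_sdiff.2 ⟨he1, heR⟩)
      refine ⟨i, α, hα, ?_⟩
      rw [← hsp]
      show (d α).1 (if (true : Bool) = true then (P (g p i)).1 else (P (g p i)).2) ≠
        (d α).1 (if (false : Bool) = true then (P (g p i)).1 else (P (g p i)).2)
      rw [hi, if_pos rfl, if_neg (by decide), (hbad2 e _ α hb).1, (hbad2 e _ α hb).2]
      intro heq
      exact p.2.2 ⟨p.2.1, e, he1, heR, heq⟩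
    · exfalso
      have heR : e ∉ R := fun h => he2 (hR p.1 (h31 _ p.2.1) h)
      exact hqC e he1 heR ⟨p, hpJ, α, hα, hbad1 e _ α hb⟩
  obtain ⟨i, α, _, hne⟩ := hO.closure_subset_iff.2 hsub hyS'
  exact hne (hdiag i α)


end Pool.Agent.H641.CP
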