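import Pool.Agent.H641.CP.Fam

/-!
# The compact space
-/

set_option autoImplicit false

namespace Pool.Agent.H641.CP

open Set Topology

/-- basic clopen sets of the Cantor set -/
def nb (x : K) (n : ℕ) : Set K := {y | ∀ i < n, y i = x i}

lemma nb_open (x : K) (n : ℕ) : IsOpen (nb x n) := by
  have : nb x n = ⋂ i ∈ Finset.range n, {y : K | y i = x i} := by ext y; simp [nb]
  rw [this]
  refine isOpen_biInter_finset fun i _ => ?_
  have h1 : Continuous fun y : K => y i := continuous_apply i
  exact (isOpen_discrete {x i}).preimage h1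

lemma mem_nb (x : K) (n : ℕ) : x ∈ nb x n := fun _ _ => rfl

lemma nb_anti {x : K} {n m : ℕ} (h : n ≤ m) : nb x m ⊆ nb x n := fun _ hy i hi => hy i (by omega)

variable {I : Type} (z : I → K × K)

/-- the colour of `x` in the `α`-th colouring -/
noncomputable def col (α : I) (x : K) : Fin 3 := vv (z α).2 (fd x (z α).1)

/-- the `α`-th colouring is locally constant off `t_α` -/
lemma col_loc (α : I) {x : K} (h : x ≠ (z α).1) {y : K} (hy : y ∈ nb x (fd x (z α).1 + 1)) :
    y ≠ (z α).1 ∧ col z α y = col z α x := by
  have h1 : y (fd x (z α).1) ≠ (z α).1 (fd x (z α).1) := by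
    rw [hy _ (by omega)]; exact fd_ne h
  have h2 : fd y (z α).1 = fd x (z α).1 :=
    fd_eq (fun i hi => by rw [hy i (by omega)]; exact fd_lt hi) h1
  exact ⟨fun e => h1 (by rw [e]), by rw [col, col, h2]⟩

/-- the set of points of the space: every point `t_α` of the Cantor set is split into three
points, the colours of which in the `α`-th colouring are the three possible ones -/
def XS : Set (K × (I → Fin 3)) := {p | ∀ α, p.1 ≠ (z α).1 → p.2 α = col z α p.1}

lemma XS_closed : IsClosed (XS z) := by
  have : XS z = ⋂ α, {p : K × (I → Fin 3) | p.1 ≠ (z α).1 → p.2 α = col z α p.1} := by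
    ext p; simp [XS]
  rw [this]
  refine isClosed_iInter fun α => ?_
  rw [← isOpen_compl_iff, isOpen_iff_forall_mem_open]
  intro p hp
  simp only [mem_compl_iff, mem_ofPred_eq, Classical.not_imp] at hp
  obtain ⟨h1, h2⟩ := hp
  refine ⟨{q | q.1 ∈ nb p.1 (fd p.1 (z α).1 + 1) ∧ q.2 α = p.2 α}, ?_, ?_, mem_nb _ _, rfl⟩
  · rintro q ⟨hq1, hq2⟩
    obtain ⟨h3, h4⟩ := col_loc z α h1 hq1
    simp only [mem_compl_iff, mem_ofPred_eq, Classical.not_imp]
    exact ⟨h3, by rw [hq2, h4]; exact h2⟩
  · refine ((nb_open _ _).preimage continuous_fst).inter ?_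
    have h5 : Continuous fun q : K × (I → Fin 3) => q.2 α := by fun_prop
    exact (isOpen_discrete {p.2 α}).preimage h5

/-- **The space.** -/
abbrev XX : Type := {p : K × (I → Fin 3) // p ∈ XS z}

instance : CompactSpace (XX z) := isCompact_iff_compactSpace.1 (XS_closed z).isCompact

instance : T2Space (XX z) := inferInstance

instance : TotallyDisconnectedSpace (XX z) := inferInstance

/-- the projection to the Cantor set -/
def pr (p : XX z) : K := p.1.1

lemma pr_cont : Continuous (pr z) := continuous_fst.comp continuous_subtype_val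

/-- the `α`-th coordinate -/
def co (α : I) (p : XX z) : Fin 3 := p.1.2 α

lemma co_cont (α : I) : Continuous (co z α) :=
  (continuous_apply α).comp (continuous_snd.comp continuous_subtype_val)

lemma co_eq (α : I) {p : XX z} (h : pr z p ≠ (z α).1) : co z α p = col z α (pr z p) := p.2 α h

lemma ext_pt {p q : XX z} (h1 : pr z p = pr z q)
    (h2 : ∀ α, pr z p = (z α).1 → co z α p = co z α q) : p = q := by
  refine Subtype.ext (Prod.ext h1 (funext fun α => ?_))
  by_cases h : pr z p = (z α).1
  · exact h2 α h
  · have h3 : p.1.2 α = col z α (pr z p) := p.2 α h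
    have h4 : q.1.2 α = col z α (pr z q) := q.2 α (by show pr z q ≠ _; rw [← h1]; exact h)
    rw [h3, h4, h1]

open Classical in
/-- a point over `x` -/
noncomputable def pt (x : K) (i : Fin 3) : XX z :=
  ⟨(x, fun α => if x = (z α).1 then i else col z α x), fun α h => by
    show (if x = (z α).1 then i else col z α x) = col z α x
    rw [if_neg]; exact h⟩

@[simp] lemma pr_pt (x : K) (i : Fin 3) : pr z (pt z x i) = x := rfl

lemma co_pt (α : I) (i : Fin 3) : co z α (pt z (z α).1 i) = i := by
  classical
  show (if (z α).1 = (z α).1 then i else _) = i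
  exact if_pos rfl

/-- the `α`-th coordinate near a point of the Cantor set different from `t_α` -/
lemma co_near (α : I) {x : K} (h : x ≠ (z α).1) {p : XX z} (hp : pr z p = x) :
    co z α p = col z α x := by rw [← hp] at h ⊢; exact co_eq z α h

/-- a clopen set of the space which does not meet the fibre of `x` does not meet a neighbourhood
of the fibre -/
lemma avoid {C : Set (XX z)} (hC : IsClosed C) {x : K} (h : ∀ p ∈ C, pr z p ≠ x) :
    ∃ n, ∀ p, pr z p ∈ nb x n → p ∉ C := by
  have h1 : IsClosed (pr z '' C) := (hC.isCompact.image (pr_cont z)).isClosed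
  have h2 : x ∈ (pr z '' C)ᶜ := by
    rintro ⟨p, hp, e⟩; exact h p hp e
  obtain ⟨n, hn⟩ := exists_prefix h1.isOpen_compl h2
  exact ⟨n, fun p hp hpC => hn _ hp ⟨p, hpC, rfl⟩⟩

/-- local form of the structure of the clopen sets -/
lemma local_form [Nonempty I] (hz : Function.Injective (fun i => (z i).1)) (e : XX z → Bool)
    (he : Continuous e) (x : K) : ∃ n, ∃ β : I, ∃ φ : Fin 3 → Bool,
      ∀ p, pr z p ∈ nb x n → e p = φ (co z β p) := by
  by_cases hx : ∃ β, x = (z β).1
  · obtain ⟨β, rfl⟩ := hx
    let φ : Fin 3 → Bool := fun i => e (pt z (z β).1 i)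
    have hcl : IsClosed {p | e p ≠ φ (co z β p)} := by
      have h1 : Continuous fun p => (e p, φ (co z β p)) :=
        he.prodMk ((continuous_of_discreteTopology (f := φ)).comp (co_cont z β))
      have h2 : {p | e p ≠ φ (co z β p)} = (fun p => (e p, φ (co z β p))) ⁻¹' {q | q.1 ≠ q.2} := rfl
      rw [h2]
      exact (isClosed_discrete _).preimage h1
    obtain ⟨n, hn⟩ := avoid z hcl (x := (z β).1) (by
      intro p hp hpx
      refine hp ?_
      have : p = pt z (z β).1 (co z β p) := by
        refine ext_pt z (by rw [pr_pt, hpx]) fun α hα => ?_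
        have : α = β := hz (by show (z α).1 = (z β).1; rw [← hα, hpx])
        subst this
        rw [co_pt]
      show e p = e (pt z (z β).1 (co z β p))
      rw [← this])
    exact ⟨n, β, φ, fun p hp => by simpa using hn p hp⟩
  · obtain ⟨β⟩ := ‹Nonempty I›
    push Not at hx
    have hcl : IsClosed {p | e p ≠ e (pt z x 0)} := by
      have : {p | e p ≠ e (pt z x 0)} = e ⁻¹' {e (pt z x 0)}ᶜ := rfl
      rw [this]
      exact (isClosed_discrete _).preimage he
    obtain ⟨n, hn⟩ := avoid z hcl (x := x) (by
      intro p hp hpx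
      refine hp ?_
      have : p = pt z x 0 := ext_pt z (by rw [pr_pt, hpx]) fun α hα =>
        absurd (hpx.symm.trans hα) (hx α)
      rw [this])
    exact ⟨n, β, fun _ => e (pt z x 0), fun p hp => by simpa using hn p hp⟩

/-- restriction to the first `n` coordinates -/
def res (n : ℕ) (x : K) : Fin n → Bool := fun i => x i

/-- extension by `false` -/
def exx {n : ℕ} (σ : Fin n → Bool) : K := fun i => if h : i < n then σ ⟨i, h⟩ else false

lemma res_exx {n : ℕ} (σ : Fin n → Bool) : res n (exx σ) = σ := by
  funext i; simp [res, exx]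

lemma exx_res_mem (n : ℕ) (x : K) : exx (res n x) ∈ nb x n := fun i hi => by
  simp [res, exx, hi]

lemma res_res {n m : ℕ} (h : m ≤ n) (x : K) : res m (exx (res n x)) = res m x := by
  funext i
  exact exx_res_mem n x i (by omega)

/-- a code: a coordinate and a two-valued function of three colours for every node at a level -/
abbrev Code (I : Type) : Type := Σ m : ℕ, ((Fin m → Bool) → I × (Fin 3 → Bool))

/-- the value of a code -/
def ev (c : Code I) (p : XX z) : Bool :=
  (c.2 (res c.1 (pr z p))).2 (co z (c.2 (res c.1 (pr z p))).1 p)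

/-- **The clopen sets of the space.** -/
theorem structure_thm [Nonempty I] (hz : Function.Injective (fun i => (z i).1)) (e : XX z → Bool)
    (he : Continuous e) : ∃ c : Code I, e = ev z c := by
  classical
  choose n β φ h using local_form z hz e he
  obtain ⟨t, ht⟩ := CompactSpace.elim_nhds_subcover (fun x : K => nb x (n x))
    (fun x => (nb_open _ _).mem_nhds (mem_nb _ _))
  have hcov : ∀ x : K, ∃ y ∈ t, x ∈ nb y (n y) := fun x => by
    have : x ∈ ⋃ y ∈ t, nb y (n y) := by rw [ht]; trivial
    simpa using this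
  choose f hf1 hf2 using hcov
  let m := t.sup n
  have hm : ∀ y ∈ t, n y ≤ m := fun y hy => Finset.le_sup hy
  refine ⟨⟨m, fun σ => (β (f (exx σ)), φ (f (exx σ)))⟩, funext fun p => ?_⟩
  show e p = φ (f (exx (res m (pr z p)))) (co z (β (f (exx (res m (pr z p))))) p)
  refine h (f (exx (res m (pr z p)))) p fun i hi => ?_
  have h1 := hm _ (hf1 (exx (res m (pr z p))))
  rw [← hf2 (exx (res m (pr z p))) i hi]
  exact (exx_res_mem m (pr z p) i (by omega)).symm

/-- the codes give continuous functions -/
lemma ev_cont (c : Code I) : Continuous (ev z c) := by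
  have h1 : ∀ i : Fin c.1, Continuous fun p : XX z => res c.1 (pr z p) i := fun i =>
    (continuous_apply (i : ℕ)).comp (pr_cont z)
  have h2 : Continuous fun p : XX z => res c.1 (pr z p) := continuous_pi h1
  rw [continuous_iff_continuousAt]
  intro p
  have h3 : ∀ᶠ q in 𝓝 p, res c.1 (pr z q) = res c.1 (pr z p) :=
    h2.continuousAt.preimage_mem_nhds (IsOpen.mem_nhds (isOpen_discrete {res c.1 (pr z p)}) rfl)
  have h4 : ContinuousAt (fun q => (c.2 (res c.1 (pr z p))).2
      (co z (c.2 (res c.1 (pr z p))).1 q)) p :=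
    ((continuous_of_discreteTopology (f := (c.2 (res c.1 (pr z p))).2)).comp
      (co_cont z _)).continuousAt
  refine h4.congr ?_
  filter_upwards [h3] with q hq
  rw [ev, hq]

end Pool.Agent.H641.CP
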