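import Pool.Agent.H641.CP.MAx
import Pool.Agent.H641.CP.Norm

/-!
# Under Martin's axiom the square of a Lindelöf `C_p(X, 2)`, `X` compact, is Lindelöf
-/

set_option autoImplicit false

namespace Pool.Agent.H641.CP

open Set Topology Cardinal Pool.Agent.W684 Pool.Agent.W684.FM

variable {X : Type} [TopologicalSpace X] [CompactSpace X] [T2Space X] [TotallyDisconnectedSpace X]

/-- if the square is not Lindelöf then there is a closed discrete family of `ℵ₁` pairs -/
lemma exists_discrete (h : ¬ LindelofSpace (Two X × Two X)) :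
    ∃ f g : W1 → Two X, ∀ e e' : Two X, ∃ F : Finset X, ∃ β : W1, ∀ γ,
      (∀ x ∈ F, (f γ).1 x = e.1 x) → (∀ x ∈ F, (g γ).1 x = e'.1 x) → γ = β := by
  classical
  have h1 : ¬ LindelofSpace {f : X ⊕ X → Bool // Continuous f} := by
    intro h2
    refine h ⟨?_⟩
    have := isLindelof_univ (X := {f : X ⊕ X → Bool // Continuous f})
    have h3 := this.image (sumHomeo X).continuous
    rwa [Set.image_univ, (sumHomeo X).surjective.range_eq] at h3
  obtain ⟨dd, hdd⟩ := Pool.Agent.H15.NL.baturov h1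
  refine ⟨fun α => (sumHomeo X (dd α)).1, fun α => (sumHomeo X (dd α)).2, fun e e' => ?_⟩
  obtain ⟨F, β, h⟩ := hdd ((sumHomeo X).symm (e, e'))
  refine ⟨F.image (Sum.elim id id), β, fun γ h2 h3 => h γ ?_⟩
  rintro (x | x) hx
  · exact h2 x (Finset.mem_image.2 ⟨_, hx, rfl⟩)
  · exact h3 x (Finset.mem_image.2 ⟨_, hx, rfl⟩)

/-- **Theorem.** Under Martin's axiom for `ℵ₁` dense sets, for every compact zero-dimensional
space `X` such that `C_p(X, 2)` is Lindelöf the square of `C_p(X, 2)` is Lindelöf. -/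
theorem sq_lindelof (hMA : MartinAxiomCard ℵ₁) (hL : LindelofSpace (Two X)) :
    LindelofSpace (Two X × Two X) := by
  classical
  by_contra hcon
  obtain ⟨f, g, hfg⟩ := exists_discrete hcon
  choose F β hF using hfg
  obtain ⟨e₁, he₁, h₁⟩ := exists_branch hMA hL f
  -- an enumeration of the pairs
  have hcard : #(BB f × BB g) ≤ ℵ₁ := by
    rw [Cardinal.mk_prod, Cardinal.lift_id, Cardinal.lift_id]
    exact Cardinal.mul_le_of_le (Cardinal.aleph0_le_aleph 1) (BB_card f) (BB_card g)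
  obtain ⟨ι⟩ : Nonempty ((BB f × BB g) ↪ W1) := by
    rw [← Cardinal.le_def, W1_card]; exact hcard
  let Q : W1 → Set X := fun κ => ⋃ p ∈ {p : BB f × BB g | ι p < κ}, (↑(F p.1.1 p.2.1) : Set X)
  have hQ : ∀ κ, (Q κ).Countable := fun κ =>
    Set.Countable.biUnion ((Iio_ct κ).preimage ι.injective) fun p _ => Finset.countable_toSet _
  have hal : ∀ κ : W1, ∃ α > κ, ∀ x ∈ Q κ, (f α).1 x = e₁.1 x := by
    intro κ
    by_contra hno
    push Not at hno
    refine h₁ (Q κ) (hQ κ) ((Iic_ct κ).mono fun α hα => ?_)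
    by_contra hlt
    obtain ⟨x, hx, hne⟩ := hno α (not_le.1 hlt)
    exact hne (hα x hx)
  choose al hal1 hal2 using hal
  obtain ⟨e₂, he₂, h₂⟩ := exists_branch hMA hL (g ∘ al)
  have he₂' : e₂ ∈ BB g := BB_comp g he₂
  let p : BB f × BB g := (⟨e₁, he₁⟩, ⟨e₂, he₂'⟩)
  refine h₂ (↑(F e₁ e₂)) (Finset.countable_toSet _) ?_
  refine ((Iic_ct (ι p)).union (Iio_ct (β e₁ e₂))).mono fun κ hκ => ?_
  by_contra hno
  rw [mem_union, not_or] at hno
  have h3 : ι p < κ := not_le.1 hno.1
  have h4 : al κ = β e₁ e₂ := by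
    refine hF e₁ e₂ (al κ) (fun x hx => hal2 κ x ?_) (fun x hx => hκ x hx)
    exact mem_iUnion₂.2 ⟨p, h3, hx⟩
  exact hno.2 (by show κ < β e₁ e₂; rw [← h4]; exact hal1 κ)

/-- The positive answer under Martin's axiom. -/
theorem sq_normal (hMA : MartinAxiomCard ℵ₁) (h : NormalSpace (Two X)) :
    NormalSpace (Two X × Two X) := by
  have hL : LindelofSpace (Two X) := Pool.Agent.H15.NL.main
  have := sq_lindelof hMA hL
  infer_instance

end Pool.Agent.H641.CP
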