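import Mathlib

/-!
# Countable tightness of the finite powers of a compact zero-dimensional space `X` with
`C_p(X, 2)` Lindelöf (Asanov)
-/

set_option autoImplicit false

namespace Pool.Agent.H641.CP

open Set Topology

/-- `C_p(X, 2)` -/
abbrev Two (X : Type) [TopologicalSpace X] : Type := {f : X → Bool // Continuous f}

lemma two_eval {X : Type} [TopologicalSpace X] (x : X) : Continuous fun f : Two X => f.1 x :=
  (continuous_apply x).comp continuous_subtype_val

open Classical in
/-- the characteristic function of a clopen set -/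
noncomputable def chr {X : Type} [TopologicalSpace X] {E : Set X} (hE : IsClopen E) : Two X :=
  ⟨fun x => decide (x ∈ E), by
    rw [continuous_bool_rng true]
    convert hE using 1
    ext x; simp⟩

lemma chr_eq {X : Type} [TopologicalSpace X] {E : Set X} (hE : IsClopen E) (x : X) :
    (chr hE).1 x = true ↔ x ∈ E := by
  simp [chr]

theorem tight {X : Type} [TopologicalSpace X] [CompactSpace X] [T2Space X]
    [TotallyDisconnectedSpace X] (hL : LindelofSpace (Two X)) {κ : Type} [Fintype κ]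
    {S : Set (κ → X)} {s : κ → X} (hs : s ∈ closure S) :
    ∃ S' ⊆ S, S'.Countable ∧ s ∈ closure S' := by
  classical
  have hc : ∀ i j, ∃ c : Set X, IsClopen c ∧ s i ∈ c ∧ (s i ≠ s j → s j ∉ c) := by
    intro i j
    by_cases h : s i = s j
    · exact ⟨univ, isClopen_univ, trivial, fun h' => absurd h h'⟩
    · obtain ⟨V, hV, h1, h2⟩ := compact_exists_isClopen_in_isOpen
        (isOpen_compl_singleton (x := s j)) (show s i ∈ ({s j} : Set X)ᶜ from h)
      exact ⟨V, hV, h1, fun _ h3 => h2 h3 rfl⟩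
  choose c hcc hc1 hc2 using hc
  let N : Set (κ → X) := {u | ∀ i j, u i ∈ c i j}
  have hN : IsOpen N := by
    have : N = ⋂ i, ⋂ j, {u : κ → X | u i ∈ c i j} := by ext u; simp [N]
    rw [this]
    exact isOpen_iInter_of_finite fun i => isOpen_iInter_of_finite fun j =>
      (hcc i j).isOpen.preimage (continuous_apply i)
  have hsN : s ∈ N := fun i j => hc1 i j
  have hs1 : s ∈ closure (S ∩ N) := by
    rw [mem_closure_iff] at hs ⊢
    intro W hW hsW
    obtain ⟨u, hu1, hu2⟩ := hs (W ∩ N) (hW.inter hN) ⟨hsW, hsN⟩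
    exact ⟨u, hu1.1, hu2, hu1.2⟩
  let Φ : Set (Two X) := {f | ∀ i, f.1 (s i) = true}
  have hΦc : IsClosed Φ := by
    have : Φ = ⋂ i, (fun f : Two X => f.1 (s i)) ⁻¹' {true} := by ext f; simp [Φ]
    rw [this]
    exact isClosed_iInter fun i => (isClosed_discrete _).preimage (two_eval (s i))
  have hΦ : IsLindelof Φ := hΦc.isLindelof
  let O : (S ∩ N : Set (κ → X)) → Set (Two X) := fun u => {f | ∀ i, f.1 (u.1 i) = true}
  have hO : ∀ u, IsOpen (O u) := fun u => by
    have : O u = ⋂ i, (fun f : Two X => f.1 (u.1 i)) ⁻¹' {true} := by ext f; simp [O]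
    rw [this]
    exact isOpen_iInter_of_finite fun i => (isOpen_discrete _).preimage (two_eval (u.1 i))
  have hcov : Φ ⊆ ⋃ u, O u := by
    intro f hf
    have h1 : IsOpen {u : κ → X | ∀ i, f.1 (u i) = true} := by
      have : {u : κ → X | ∀ i, f.1 (u i) = true} = ⋂ i, {u : κ → X | f.1 (u i) = true} := by
        ext u; simp
      rw [this]
      exact isOpen_iInter_of_finite fun i =>
        (isOpen_discrete {true}).preimage (f.2.comp (continuous_apply i))
    obtain ⟨u, hu1, hu2⟩ := mem_closure_iff.1 hs1 _ h1 hf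
    exact mem_iUnion.2 ⟨⟨u, hu2⟩, hu1⟩
  obtain ⟨t, ht, hcov'⟩ := hΦ.elim_countable_subcover O hO hcov
  refine ⟨Subtype.val '' t, ?_, ht.image _, ?_⟩
  · rintro _ ⟨u, _, rfl⟩; exact u.2.1
  rw [mem_closure_iff]
  intro W hW hsW
  obtain ⟨A, b, hb1, hb2⟩ := isOpen_pi_iff.1 hW s hsW
  have hb : ∀ i, ∃ V : Set X, IsClopen V ∧ s i ∈ V ∧ (i ∈ A → V ⊆ b i) := by
    intro i
    by_cases hi : i ∈ A
    · obtain ⟨V, hV, h1, h2⟩ := compact_exists_isClopen_in_isOpen (hb1 i hi).1 (hb1 i hi).2
      exact ⟨V, hV, h1, fun _ => h2⟩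
    · exact ⟨univ, isClopen_univ, trivial, fun h => absurd h hi⟩
  choose V hVc hV1 hV2 using hb
  let E : Set X := ⋃ i, ⋂ j, (if s i ≠ s j then (c j i)ᶜ else V j)
  have hE : IsClopen E := by
    refine isClopen_iUnion_of_finite fun i => isClopen_iInter_of_finite fun j => ?_
    split
    · exact (hcc j i).compl
    · exact hVc j
  have hmem : ∀ x, x ∈ E ↔ ∃ i, ∀ j, x ∈ (if s i ≠ s j then (c j i)ᶜ else V j) := by
    intro x; simp only [E, mem_iUnion, mem_iInter]
  have hfΦ : chr hE ∈ Φ := by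
    intro i
    rw [chr_eq, hmem]
    refine ⟨i, fun j => ?_⟩
    split
    · rename_i h; exact hc2 j i (Ne.symm h)
    · rename_i h
      have : s i = s j := by simpa using h
      rw [this]; exact hV1 j
  obtain ⟨u, hut, hu⟩ := mem_iUnion₂.1 (hcov' hfΦ)
  refine ⟨u.1, hb2 fun i hi => ?_, ⟨u, hut, rfl⟩⟩
  have h1 := hu i
  rw [chr_eq, hmem] at h1
  obtain ⟨i', h2⟩ := h1
  have h3 := h2 i
  by_cases h4 : s i' ≠ s i
  · rw [if_pos h4] at h3
    exact absurd (u.2.2 i i') h3
  · rw [if_neg h4] at h3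
    exact hV2 i hi h3

end Pool.Agent.H641.CP
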